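import Mathlib
import Pool.Agent.Helper28.BA.Defs

/-!
# Iwaniec's conjecture (MP_f7b570_an), core inequality: exact statements of the packets

`psi s d = s² - d²` if `s + d ≤ 1`, `2 s - 1` otherwise.  GOAL: `0 ≤ ∫ psi ‖∂f‖ ‖∂̄f‖` for `f = 2 ∂̄U`, `U` complex
valued.  Everything takes place on the torus `ℂ / (ℤ + iℤ)`, `Q` = unit square.  `hl U = ∂f` is half of the
Laplacian of `U`, `zb U = ∂̄f = 2 ∂̄²U`.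

PROOF.  Let `W` be a trigonometric polynomial with `hl W - κ W = Mo n G`, `G = (1 - ‖zb W‖)₊ β`, `β = H / R`,
`H = W - U`, `R = √(‖H‖² + ε²)` (Galerkin + Brouwer, S_GAL; `Mo n` = convolution with a positive trigonometric
kernel of mass one).  Then `∫ ‖zb W‖² = ∫ ‖hl W‖² ≤ ∫ ‖Mo n G‖² ≤ ∫ ‖G‖²` (S_PL, S_MO3).  Multipliers:
`B = (1 - τ c) β`, `γ = - τ p`, `τ = 1 / (1 + (R/ρ)^(2ν))`, `c ≈ min ‖zb U‖ 1`, `p ≈` projection of `zb U` to the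
unit disc, `‖p‖ ≤ c ≤ 1 - η`.  The pointwise inequality S_ALG gives
`psi ≥ (‖G‖² - ‖zb W‖²) + 2 Re (B̄ (hl U - G)) + 2 Re (γ̄ (zb U - zb W)) - small`, the integral of the first
term is `≥ 0`, and in the integral of the second one `G` may be replaced by `hl W` (S_MO2, S_MO4; the term
with `κ` has a good sign), after which S_K3 (Kato's inequality for the vector valued `H`) says that the rest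
is `≥ - small`.  Order of the choices: `e`, (`p`, `c`, `η`), `ν`, `κ`, `ρ`, `ε`, `n`.
-/

open Complex MeasureTheory Set Filter Topology
open scoped ContDiff ComplexConjugate

namespace Pool.Agent.Helper82.IW

open Pool.Agent.Helper28.BA (dz db psi)

noncomputable section

/-! ### Definitions -/

/-- The closed unit square. -/
def Q : Set ℂ := Icc 0 1 ×ℂ Icc 0 1

/-- Derivative in the direction `x`. -/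
def dx {E : Type*} [NormedAddCommGroup E] [NormedSpace ℝ E] (f : ℂ → E) (z : ℂ) : E :=
  fderiv ℝ f z 1

/-- Derivative in the direction `y`. -/
def dy {E : Type*} [NormedAddCommGroup E] [NormedSpace ℝ E] (f : ℂ → E) (z : ℂ) : E :=
  fderiv ℝ f z I

/-- Square of the norm of the gradient. -/
def gr {E : Type*} [NormedAddCommGroup E] [NormedSpace ℝ E] (f : ℂ → E) (z : ℂ) : ℝ :=
  ‖dx f z‖ ^ 2 + ‖dy f z‖ ^ 2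

/-- Doubly periodic. -/
def Per {E : Type*} (f : ℂ → E) : Prop := ∀ z, f (z + 1) = f z ∧ f (z + I) = f z

/-- Smooth and doubly periodic. -/
structure SP {E : Type*} [NormedAddCommGroup E] [NormedSpace ℝ E] (f : ℂ → E) : Prop where
  smooth : ContDiff ℝ ∞ f
  per : Per f

/-- Half of the Laplacian, `2 ∂ ∂̄`. -/
def hl (W : ℂ → ℂ) (z : ℂ) : ℂ := (1 / 2 : ℂ) * (dx (dx W) z + dy (dy W) z)

/-- `2 ∂̄²`. -/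
def zb (W : ℂ → ℂ) (z : ℂ) : ℂ := (1 / 2 : ℂ) * (dx (dx W) z - dy (dy W) z + 2 * I * dx (dy W) z)

/-- One-dimensional kernel of mass one. -/
def k1 (n : ℕ) (t : ℝ) : ℝ := (4 : ℝ) ^ n / (Nat.centralBinom n : ℝ) * Real.cos (Real.pi * t) ^ (2 * n)

/-- The kernel on the torus. -/
def kr (n : ℕ) (z : ℂ) : ℝ := k1 n z.re * k1 n z.im

/-- Convolution with the kernel. -/
def Mo (n : ℕ) (f : ℂ → ℂ) (z : ℂ) : ℂ := ∫ w in Q, (kr n (z - w) : ℂ) * f w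

/-- Exponentials. -/
def ex (k : ℤ × ℤ) (z : ℂ) : ℂ :=
  Complex.exp (((2 * Real.pi * ((k.1 : ℝ) * z.re + (k.2 : ℝ) * z.im) : ℝ) : ℂ) * I)

/-- Frequencies. -/
def box (n : ℕ) : Finset (ℤ × ℤ) := Finset.Icc (-(n : ℤ)) n ×ˢ Finset.Icc (-(n : ℤ)) n

/-- Trigonometric polynomials. -/
def tp (n : ℕ) (c : ℤ × ℤ → ℂ) (z : ℂ) : ℂ := ∑ k ∈ box n, c k * ex k z

/-- The regularised norm of `H`. -/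
def Rr (ε : ℝ) (H : ℂ → ℂ) (z : ℂ) : ℝ := Real.sqrt (‖H z‖ ^ 2 + ε ^ 2)

/-- The cutoff. -/
def ta (ν ρ : ℝ) (r : ℝ) : ℝ := 1 / (1 + (r / ρ) ^ (2 * ν))

/-- The nonlinearity `(1 - ‖zb W‖)₊ (W - U) / R`. -/
def Gf (ε : ℝ) (U W : ℂ → ℂ) (z : ℂ) : ℂ :=
  ((max (1 - ‖zb W z‖) 0 : ℝ) : ℂ) * ((W z - U z) / (Rr ε (fun w => W w - U w) z : ℂ))

/-- Projection to the closed unit disc. -/
def Pj (w : ℂ) : ℂ := if ‖w‖ ≤ 1 then w else w / (‖w‖ : ℂ)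

/-- The multiplier `B = (1 - τ c) H / R`. -/
def Bf (ε ν ρ : ℝ) (c : ℂ → ℝ) (H : ℂ → ℂ) (z : ℂ) : ℂ :=
  ((1 - ta ν ρ (Rr ε H z) * c z : ℝ) : ℂ) * (H z / (Rr ε H z : ℂ))

/-! ### Algebra -/

/-- PACKET ALG (pointwise inequality; `s = ‖a‖`, `d = ‖z0‖`, `b = ‖β‖`, `δ = ‖ζ‖`, `c1 = min d 1`, `p1 = Pj z0`,
`‖p1‖ = c1`, `Re (p̄1 z0) = c1 d`).
(1) Replace `c`, `p` by `c1`, `p1`: the second and third terms change by at most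
`2 τ |c - c1| ‖β‖ ‖a - G‖ ≤ 2 e (‖a‖ + 1)` (`‖G‖ ≤ 1`) and `2 τ ‖p - p1‖ ‖z0 - ζ‖ ≤ 2 e (‖z0‖ + ‖ζ‖)`.
(2) Now put `c0 = τ c1`, `k = max (1 - δ) 0`, `G = k β`.  `Re (β̄ a) ≤ b s` and
`2 Re (conj (-(τ p1)) (z0 - ζ)) ≤ - 2 c0 d + 2 c0 δ`, so it is enough that
`k² b² - δ² + 2 (1 - c0) (b s - k b²) - 2 c0 d + 2 c0 δ ≤ psi s d + 2 min (1 - b) (1 - τ)`.
(3) If `δ ≤ 1`, `k = 1 - δ`, the left side is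
`2 (1 - c0) b s - 2 c0 d - 1 + 2 c0 - (1 - b²) (k² - 2 k (1 - c0))` and `k² - 2 k (1 - c0) ≥ - (1 - c0)²`.
If `δ > 1`, `k = 0`, it is `2 (1 - c0) b s - 2 c0 d - δ² + 2 c0 δ ≤ 2 (1 - c0) b s - 2 c0 d - 1 + 2 c0`.
So in both cases it is at most `L = 2 (1 - c0) b s - 2 c0 d - 1 + 2 c0 + (1 - b²) (1 - c0)²`.
(4) `s + d ≤ 1` (`c0 = τ d`): `psi s d - L = (s - (1 - c0) b)² - (d - c0)²`.  It is at least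
`- (d - c0)² ≥ - (1 - τ)`, and with `y = 1 - c0 - s ≥ d - c0 ≥ 0` it is
`(y - (1 - c0) (1 - b))² - (d - c0)² ≥ - 2 y (1 - c0) (1 - b) ≥ - 2 (1 - b)`.
(5) `s + d ≥ 1`, `d ≤ 1`: `psi s d - L = 2 s (1 - (1 - c0) b) - 2 c0 (1 - d) - (1 - b²) (1 - c0)²`, increasing in `s`,
at `s = 1 - d` it is `(1 - c0) (1 - b) ((1 - b) (1 - d) - (1 + b) (d - c0)) ≥ - 2 (1 - b) (1 - τ)`.
(6) `d > 1` (`c0 = τ`): `psi s d - L ≥ - (1 - b²) (1 - τ)² ≥ - 2 (1 - b) (1 - τ)`.  (Note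
`(1 - b) (1 - τ) ≤ min (1 - b) (1 - τ)`.) -/
def S_ALG : Prop := ∀ (a z0 β ζ p : ℂ) (τ c e : ℝ), ‖β‖ ≤ 1 → 0 ≤ τ → τ ≤ 1 → 0 ≤ e →
  |c - min ‖z0‖ 1| ≤ e → ‖p - Pj z0‖ ≤ e →
  (‖((max (1 - ‖ζ‖) 0 : ℝ) : ℂ) * β‖ ^ 2 - ‖ζ‖ ^ 2) +
    2 * (conj (((1 - τ * c : ℝ) : ℂ) * β) * (a - ((max (1 - ‖ζ‖) 0 : ℝ) : ℂ) * β)).re +
    2 * (conj (-((τ : ℂ) * p)) * (z0 - ζ)).re -
    2 * min (1 - ‖β‖) (1 - τ) - 2 * e * (‖a‖ + 1 + ‖z0‖ + ‖ζ‖) ≤ psi ‖a‖ ‖z0‖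

/-- PACKET QUAD (pointwise).  `hx`, `hy` = derivatives of `H`, `rx`, `ry` = derivatives of `R = √(‖H‖² + ε²)`.
`X² = rx² + ry²`, `N² = ‖hx‖² + ‖hy‖² - X² ≥ 0`.  (a) `‖hx + I hy‖ ≤ X + √2 N`: if `H = 0` then `X = 0` and
it is `‖hx + I hy‖ ≤ √2 N`; otherwise let `u = H/‖H‖`, `b = ‖H‖/R < 1`, `hx = u (a1 + i b1)`, `hy = u (a2 + i b2)`,
`|a| = √(a1² + a2²)`, `|b'| = √(b1² + b2²)`: `X = b |a|`, `N² = (1 - b²) |a|² + |b'|²`,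
`‖hx + I hy‖ = ‖(a1 + i a2) + i (b1 + i b2)‖ ≤ |a| + |b'| = X + ((1 - b) |a| + |b'|)` and
`((1 - b) |a| + |b'|)² ≤ ((1-b)²/(1-b²) + 1) N² ≤ 2 N²`.  (b) with (a) and `P ≤ c`, `P ≤ 1`, the left side is at
least `(1 - τ c) N²/R + c t X² - t P X (X + √2 N) ≥ η N²/R - √2 t X N ≥ - t² X² R / (2 η) ≥ - (ν/(4η)) t X²`. -/
def S_QUAD : Prop := ∀ (H hx hy : ℂ) (R ε τ c t η ν P : ℝ), 0 < ε → R = Real.sqrt (‖H‖ ^ 2 + ε ^ 2) →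
  0 ≤ τ → τ ≤ 1 → 0 < η → c ≤ 1 - η → 0 ≤ P → P ≤ c → 0 ≤ t → R * t ≤ ν / 2 →
  let rx := (conj H * hx).re / R
  let ry := (conj H * hy).re / R
  0 ≤ ‖hx‖ ^ 2 + ‖hy‖ ^ 2 - (rx ^ 2 + ry ^ 2) ∧
  -(ν / (4 * η)) * (t * (rx ^ 2 + ry ^ 2)) ≤
    (1 - τ * c) * ((‖hx‖ ^ 2 + ‖hy‖ ^ 2 - (rx ^ 2 + ry ^ 2)) / R) + c * t * (rx ^ 2 + ry ^ 2) -
      t * P * Real.sqrt (rx ^ 2 + ry ^ 2) * ‖hx + I * hy‖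

/-! ### Calculus on the torus -/

/-- PACKET INT (integration over the square).  Iterated integrals (`Complex.measurableEquivRealProd`,
`Complex.volume_preserving_equiv_real_prod`, Fubini for a continuous function on a compact set), fundamental
theorem of calculus in one variable, `Function.Periodic.intervalIntegral_add_eq`.  Third part: translations by real
and by imaginary numbers.  Fourth part: volume of the square. -/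
def S_INT : Prop :=
  (∀ F : ℂ → ℂ, ContDiff ℝ 1 F → Per F → ∫ z in Q, dx F z = 0) ∧
  (∀ F : ℂ → ℂ, ContDiff ℝ 1 F → Per F → ∫ z in Q, dy F z = 0) ∧
  (∀ F : ℂ → ℂ, Continuous F → Per F → ∀ w, ∫ z in Q, F (z + w) = ∫ z in Q, F z) ∧
  (∀ F : ℂ → ℝ, Continuous F → Per F → ∀ w, ∫ z in Q, F (z + w) = ∫ z in Q, F z) ∧
  volume Q = 1

/-- PACKET SPB (stability of smooth periodic functions; elementary). `ContDiff ℝ ∞` is stable under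
`fderiv`.  For `Rr`: square root of a positive smooth function; for `ta`: real power of a positive
smooth function.  Derivatives: chain rule; `R² = ‖H‖² + ε²`. -/
def S_SPB : Prop :=
  (∀ f : ℂ → ℂ, SP f → SP (dx f) ∧ SP (dy f) ∧ SP (hl f) ∧ SP (zb f) ∧ SP (fun z => conj (f z)) ∧
    (∀ z, dx (dy f) z = dy (dx f) z) ∧
    (∀ z, dx (fun w => conj (f w)) z = conj (dx f z)) ∧ ∀ z, dy (fun w => conj (f w)) z = conj (dy f z)) ∧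
  (∀ (ε : ℝ) (H : ℂ → ℂ), 0 < ε → SP H → SP (Rr ε H) ∧
    (∀ z, dx (Rr ε H) z = (conj (H z) * dx H z).re / Rr ε H z) ∧
    ∀ z, dy (Rr ε H) z = (conj (H z) * dy H z).re / Rr ε H z) ∧
  (∀ (ε ν ρ : ℝ) (H : ℂ → ℂ), 0 < ε → 0 < ρ → SP H → SP (fun z => ta ν ρ (Rr ε H z)) ∧
    (∀ z, dx (fun z => ta ν ρ (Rr ε H z)) z =
      -(2 * ν / Rr ε H z) * (ta ν ρ (Rr ε H z) * (1 - ta ν ρ (Rr ε H z))) * dx (Rr ε H) z) ∧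
    ∀ z, dy (fun z => ta ν ρ (Rr ε H z)) z =
      -(2 * ν / Rr ε H z) * (ta ν ρ (Rr ε H z) * (1 - ta ν ρ (Rr ε H z))) * dy (Rr ε H) z) ∧
  (∀ (ε ν ρ : ℝ) (H : ℂ → ℂ) (c : ℂ → ℝ), 0 < ε → 0 < ρ → SP H → SP c → SP (Bf ε ν ρ c H))

/-- PACKET IB (may assume S_INT, S_SPB).  Integration by parts. (1) `∂x (T̄ H_x) = T̄_x H_x + T̄ H_xx`, the same in `y`.
(2) `2 zb H = (∂x + i ∂y) (H_x + i H_y)`. -/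
def S_IB : Prop :=
  (∀ T H : ℂ → ℂ, SP T → SP H → ∫ z in Q, (conj (T z) * (2 * hl H z)).re =
    -∫ z in Q, (conj (dx T z) * dx H z + conj (dy T z) * dy H z).re) ∧
  (∀ q H : ℂ → ℂ, SP q → SP H → 2 * ∫ z in Q, (conj (q z) * zb H z).re =
    -∫ z in Q, ((conj (dx q z) + I * conj (dy q z)) * (dx H z + I * dy H z)).re)

/-- PACKET PL (may assume S_INT, S_SPB, S_IB).  (1) `∫ ‖hl W‖² = ∫ ‖zb W‖²`: integrate by parts twice: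
`4 ‖zb W‖² = ‖W_xx - W_yy + 2 i W_xy‖²`, `∫ Re (W̄_xx W_yy) = ∫ ‖W_xy‖²`, and
`∫ Re (conj (W_xx - W_yy) i W_xy) = 0` (`∫ Re (W̄_xx i W_xy) = - ∫ Re (W̄_x i W_xxy)`, ..; with `V = W_x`:
`∫ Re (V̄_x i V_y) = 0` because `Re (V̄_x i V_y) = (1/2) Re (∂x (V̄ i V_y) + ∂y (V̄_x i V))`: check
`Re (V̄ i V_xy) + Re (V̄_xy i V) = 0`, `Re (V̄_x i V_y) = Re (V̄_x i V_y)`; the same with `V = W_y`).
Or: `hl W = D (D' W)` with commuting `D = ∂x + i ∂y`, `D' = ∂x - i ∂y` and `∫ F̄ D G = - ∫ conj (D' F) G`.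
(2) `∫ ‖hl W - κ W‖² = ∫ ‖hl W‖² - 2 κ Re ∫ (W̄ hl W) + κ² ∫ ‖W‖²` and `Re ∫ W̄ hl W = - (1/2) ∫ gr W ≤ 0`.
(3) `∫ gr W = - 2 Re ∫ W̄ hl W ≤ ∫ (‖W‖² + ‖hl W‖²)`. -/
def S_PL : Prop := ∀ W : ℂ → ℂ, SP W →
  ∫ z in Q, ‖hl W z‖ ^ 2 = ∫ z in Q, ‖zb W z‖ ^ 2 ∧
  (∀ κ : ℝ, 0 ≤ κ → (∫ z in Q, ‖hl W z‖ ^ 2) + κ ^ 2 * (∫ z in Q, ‖W z‖ ^ 2) ≤
    ∫ z in Q, ‖hl W z - (κ : ℂ) * W z‖ ^ 2) ∧
  ∫ z in Q, gr W z ≤ (∫ z in Q, ‖W z‖ ^ 2) + ∫ z in Q, ‖hl W z‖ ^ 2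

/-- PACKET K1 (may assume S_SPB, S_IB, S_QUAD).  `T = (1 - τ) H / R` (`Bf` with `c = 1`), `t = (2ν/R) τ (1-τ)`:
`Re (conj (∇T) · ∇H) = (1 - τ) (gr H - gr R)/R + t gr R ≥ t gr R` [`(H/R)_x = H_x/R - H R_x/R²`,
`Re (H̄ H_x) = R R_x`], and by S_IB its integral is `- ∫ Re (T̄ 2 hl H) ≤ ∫ 2 ‖hl H‖` (`‖T‖ ≤ 1`). -/
def S_K1 : Prop := ∀ (ε ν ρ : ℝ) (H : ℂ → ℂ), 0 < ε → 0 < ν → 0 < ρ → SP H →
  ∫ z in Q, 2 * ν / Rr ε H z * (ta ν ρ (Rr ε H z) * (1 - ta ν ρ (Rr ε H z))) * gr (Rr ε H) z ≤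
    ∫ z in Q, 2 * ‖hl H z‖

/-- PACKET K2 (may assume S_SPB, S_IB, S_QUAD).  `T = τ H`: `Re (conj (∇T) · ∇H) = τ gr H - 2 ν τ (1 - τ) gr R ≥
(1 - 2ν) τ gr H ≥ (1/2) τ gr H` (`gr R ≤ gr H`, first part of S_QUAD), and by S_IB its integral is
`- ∫ τ Re (H̄ 2 hl H) ≤ ∫ τ ‖H‖ 2 ‖hl H‖`. -/
def S_K2 : Prop := ∀ (ε ν ρ : ℝ) (H : ℂ → ℂ), 0 < ε → 0 < ν → ν ≤ 1 / 4 → 0 < ρ → SP H →
  ∫ z in Q, ta ν ρ (Rr ε H z) * gr H z ≤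
    2 * ∫ z in Q, ta ν ρ (Rr ε H z) * ‖H z‖ * (2 * ‖hl H z‖)

/-- PACKET K3 (may assume S_SPB, S_IB, S_QUAD, S_K1).  `B = Bf`, `q = τ p`, `t = (2ν/R) τ (1-τ)` (`R t ≤ ν/2`).
`Re (conj (∇B) · ∇H) = (1 - τ c) (gr H - gr R)/R + c t gr R - τ ∇c · ∇R` and
`- Re ((q̄_x + i q̄_y) (H_x + i H_y)) = Re (t (R_x + i R_y) p̄ (H_x + i H_y)) - τ Re ((p̄_x + i p̄_y) (H_x + i H_y))`.
By S_IB the left side of the claim is the integral of the sum; `‖R_x + i R_y‖ = √(gr R)`, so S_QUAD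
(`P = ‖p‖`) gives `≥ - (ν/(4η)) t gr R - τ (‖∇c‖ ‖∇R‖ + ‖p̄_x + i p̄_y‖ ‖H_x + i H_y‖)`; the first part is
treated by S_K1, the bracket is at most `(√2 K + 2 K √2) √(gr H) ≤ 5 K √(gr H)`. -/
def S_K3 : Prop := ∀ (ε ν ρ η K : ℝ) (H p : ℂ → ℂ) (c : ℂ → ℝ), 0 < ε → 0 < ν → 0 < ρ → 0 < η →
  0 ≤ K → SP H → SP p → SP c → (∀ z, ‖p z‖ ≤ c z) → (∀ z, c z ≤ 1 - η) →
  (∀ z, |dx c z| ≤ K ∧ |dy c z| ≤ K ∧ ‖dx p z‖ ≤ K ∧ ‖dy p z‖ ≤ K) →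
  -(ν / (4 * η)) * (∫ z in Q, 2 * ‖hl H z‖) -
      5 * K * (∫ z in Q, ta ν ρ (Rr ε H z) * Real.sqrt (gr H z)) ≤
    -(∫ z in Q, (conj (Bf ε ν ρ c H z) * (2 * hl H z)).re) +
      2 * ∫ z in Q, ta ν ρ (Rr ε H z) * (conj (p z) * zb H z).re

/-! ### The kernel, Galerkin -/

/-- PACKET KER (the kernel).  `cos(πt)^(2n) = 4^(-n) ∑_j binom(2n, n+j) e^(2πijt)`, `|j| ≤ n` (binomial theorem for
`(e^(iπt) + e^(-iπt))^(2n)`).  (1) `k1 ≥ 0`, mass one over a period, even, period 1.  (2) first moment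
over `[-1/2, 1/2]` tends to `0`: for `|t| ≤ 1/2` one has `cos(πt)² ≤ 1 - 4t² ≤ exp(-4t²)`
(`sin(π t) ≥ 2 t`), `k1 n t ≤ (2n+1) exp(-4 n t²)` (`4^n ≤ (2n+1) centralBinom n`), so
`∫ |t| k1 ≤ δ + (2n+1) exp(-4 n δ²)` for every `δ > 0`. -/
def S_KER : Prop :=
  (∀ n t, 0 ≤ k1 n t) ∧ (∀ n t, k1 n (t + 1) = k1 n t) ∧ (∀ n t, k1 n (-t) = k1 n t) ∧
  (∀ n, ∫ t in (0 : ℝ)..1, k1 n t = 1) ∧
  Tendsto (fun n => ∫ t in (-(1 / 2) : ℝ)..(1 / 2), |t| * k1 n t) atTop (𝓝 0) ∧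
  ∀ n, ∃ K : ℤ → ℝ, (∀ j, 0 ≤ K j ∧ K j ≤ 1) ∧ ∀ t : ℝ, (k1 n t : ℂ) =
    ∑ j ∈ Finset.Icc (-(n : ℤ)) n, (K j : ℂ) * Complex.exp (((2 * Real.pi * (j * t) : ℝ) : ℂ) * I)

/-- PACKET MO1 (may assume S_KER).  Expand the kernel: `kr n (z - w) = ∑ K j K l ex (j,l) z conj (ex (j,l) w)`. -/
def S_MO1 : Prop := ∀ n : ℕ, ∃ K : ℤ × ℤ → ℝ, (∀ k, 0 ≤ K k ∧ K k ≤ 1) ∧
  ∀ f : ℂ → ℂ, Continuous f → ∀ z,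
    Mo n f z = tp n (fun k => (K k : ℂ) * ∫ w in Q, conj (ex k w) * f w) z

/-- PACKET MO2 (may assume S_KER, S_MO1).  Self-adjointness: Fubini and `kr` even and real, or directly from the
formula in S_MO1. -/
def S_MO2 : Prop := ∀ n : ℕ, ∀ f g : ℂ → ℂ, Continuous f → Continuous g →
  ∫ z in Q, conj (g z) * Mo n f z = ∫ z in Q, conj (Mo n g z) * f z

/-- PACKET MO3 (may assume S_KER, S_INT).  `‖Mo n f z‖² ≤ ∫ kr (z - w) ‖f w‖² dw` (Cauchy-Schwarz / Jensen, the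
kernel has mass one for every `z`), then Fubini. -/
def S_MO3 : Prop := ∀ n : ℕ, ∀ f : ℂ → ℂ, Continuous f → Per f →
  ∫ z in Q, ‖Mo n f z‖ ^ 2 ≤ ∫ z in Q, ‖f z‖ ^ 2

/-- PACKET MO4 (may assume S_KER, S_INT).  `Mo n f z - f z = ∫_{w ∈ [-1/2,1/2]²} kr n w (f (z - w) - f z)` (periodicity),
`‖f (z - w) - f z‖ ≤ ∫_0^1 (|w.re| ‖dx f‖ + |w.im| ‖dy f‖) (z - s w) ds`; integrate over `z ∈ Q` (translation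
invariance) and then over `w`: `m n = ∫ |t| k1 n t`. -/
def S_MO4 : Prop := ∃ m : ℕ → ℝ, Tendsto m atTop (𝓝 0) ∧ ∀ (n : ℕ) (f : ℂ → ℂ), ContDiff ℝ 1 f →
  Per f → ∫ z in Q, ‖Mo n f z - f z‖ ≤ m n * ∫ z in Q, (‖dx f z‖ + ‖dy f z‖)

/-- PACKET TPD (trigonometric polynomials).  `∂x ex k = 2πi k.1 ex k` etc. -/
def S_TPD : Prop := ∀ (n : ℕ) (c : ℤ × ℤ → ℂ), SP (tp n c) ∧
  (∀ z, hl (tp n c) z =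
    tp n (fun k => -(2 * (Real.pi : ℂ) ^ 2 * ((k.1 : ℂ) ^ 2 + (k.2 : ℂ) ^ 2)) * c k) z) ∧
  ∀ z, zb (tp n c) z =
    tp n (fun k => -(2 * (Real.pi : ℂ) ^ 2 * ((k.1 : ℂ) + I * (k.2 : ℂ)) ^ 2) * c k) z

/-- PACKET GAL (may assume S_MO1, S_TPD, and Brouwer's theorem `brouwer_fd` in
`Pool/Agent/Helper30/Brouwer/Ball.lean` or `Kakutani.lean`).  Brouwer for the map
`c ↦ (k ↦ K k (∫ w in Q, conj (ex k w) * Gf ε U (tp n c) w) / (-(2π²(k.1² + k.2²)) - κ))` of the ball of radius `1/κ`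
of the finite dimensional space of the functions on `box n` into itself (`‖Gf‖ ≤ 1`); it is continuous
because `(c, w) ↦ Gf ε U (tp n c) w` is. -/
def S_GAL : Prop := ∀ (n : ℕ) (κ ε : ℝ) (U : ℂ → ℂ), 0 < κ → 0 < ε → Continuous U →
  ∃ c : ℤ × ℤ → ℂ, ∀ z, hl (tp n c) z - (κ : ℂ) * tp n c z = Mo n (Gf ε U (tp n c)) z

/-- PACKET PC (the coefficients `p`, `c`).  Let `m ≥ 1` be large and `η` small, `q = z0 (1 + ‖z0‖^(2m))^(-1/(2m))`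
(smooth: `‖z0‖^(2m) = (normSq z0)^m`), `‖q‖ < 1`, `‖q - Pj z0‖ ≤ 1 - 2^(-1/(2m)) ≤ 1/m`;
`c = (1 - η) √((‖q‖² + η²)/(1 + η²))`, `p = (1 - η)/√(1 + η²) q`.  The bound `K`: continuous periodic functions are
bounded. -/
def S_PC : Prop := ∀ z0 : ℂ → ℂ, SP z0 → ∀ e : ℝ, 0 < e → ∃ (η K : ℝ) (p : ℂ → ℂ) (c : ℂ → ℝ),
  0 < η ∧ 0 ≤ K ∧ SP p ∧ SP c ∧ (∀ z, ‖p z‖ ≤ c z) ∧ (∀ z, c z ≤ 1 - η) ∧
  (∀ z, |dx c z| ≤ K ∧ |dy c z| ≤ K ∧ ‖dx p z‖ ≤ K ∧ ‖dy p z‖ ≤ K) ∧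
  (∀ z, |c z - min ‖z0 z‖ 1| ≤ e) ∧ ∀ z, ‖p z - Pj (z0 z)‖ ≤ e

/-! ### Assembly -/

/-- PACKET BD (bound for the derivatives of `B`; may assume S_SPB, S_QUAD).  `B = (1 - τ c) H/R`:
`‖(H/R)_x‖ ≤ 2 ‖H_x‖/R`, `|τ_x| ≤ (ν/2) |R_x|/R ≤ ‖H_x‖/R` (`ν ≤ 1/4`), `R ≥ ε`, `0 ≤ c ≤ 1`. -/
def S_BD : Prop := ∀ (ε ν ρ : ℝ) (H : ℂ → ℂ) (c : ℂ → ℝ), 0 < ε → 0 < ν → ν ≤ 1 / 4 → 0 < ρ →
  SP H → SP c → (∀ z, 0 ≤ c z ∧ c z ≤ 1) → ∀ z,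
  ‖dx (Bf ε ν ρ c H) z‖ ≤ 3 / ε * ‖dx H z‖ + |dx c z| ∧
  ‖dy (Bf ε ν ρ c H) z‖ ≤ 3 / ε * ‖dy H z‖ + |dy c z|

/-- PACKET ONE (one choice of the parameters; may assume S_ALG, S_INT, S_SPB, S_PL, S_K2, S_K3, S_MO1-S_MO4, S_TPD,
S_GAL, S_BD).  `U`, `p`, `c`, `A`, `η`, `K`, `e` are given.  `W = tp n c'` from S_GAL, `H = W - U`, `G = Gf ε U W`.
(a) `∫ ‖G‖² ≤ 1`; by S_PL, S_MO3: `∫ ‖zb W‖² = ∫ ‖hl W‖² ≤ ∫ ‖G‖²`, `κ² ∫ ‖W‖² ≤ 1`; so `∫ ‖zb W‖ ≤ 1`,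
`∫ ‖hl W‖ ≤ 1`, `∫ ‖hl H‖ ≤ 1 + A`, `∫ ‖hl H‖² ≤ 2 + 2 A²`, `∫ ‖H‖² ≤ 2/κ² + 2 A²`.
(b) S_ALG at every point with `a = hl U z`, `z0 = zb U z`, `β = H/R`, `ζ = zb W z`, `τ = ta ν ρ R`, integrated:
`∫ psi ≥ ∫ (‖G‖² - ‖zb W‖²) + 2 ∫ Re (B̄ (hl U - G)) + 2 ∫ Re (conj (-(τ p)) (zb U - zb W)) - 2 m0 - 2 e (2A + 2)`,
`m0 = ε + (√ε/ρ)^(2ν)` bounds `min (1 - b) (1 - τ)`: if `R² ≥ ε` then `1 - b ≤ 1 - b² = ε²/R² ≤ ε`, otherwise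
`1 - τ ≤ (R/ρ)^(2ν) ≤ (√ε/ρ)^(2ν)`.
(c) `2 ∫ Re (B̄ (hl W - G)) = 2 κ ∫ Re (B̄ W) + 2 Re ∫ B̄ (Mo n G - G) ≥ - 2 κ A - 2 ∫ ‖Mo n B - B‖`
(`Re (B̄ W) = Re (B̄ H) + Re (B̄ U) ≥ - A`; S_MO2, `‖G‖ ≤ 1`), and
`∫ ‖Mo n B - B‖ ≤ |m n| (∫ (3/ε) (‖H_x‖ + ‖H_y‖) + 2 K)` (S_MO4, S_BD), `‖H_x‖ + ‖H_y‖ ≤ 1 + gr H`,
`∫ gr H ≤ ∫ ‖H‖² + ∫ ‖hl H‖²` (S_PL).
(d) `2 ∫ Re (B̄ (hl U - hl W)) + 2 ∫ Re (conj (-(τ p)) (zb U - zb W))` is the right side of S_K3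
(`hl U - hl W = - hl H`), at least `- (ν/(4η)) 2 (1 + A) - 5 K ∫ τ √(gr H)`.
(e) `∫ τ √(gr H) ≤ θ/2 + (1/(2θ)) ∫ τ gr H` for `θ = ρ^ν` (`τ² ≤ τ ≤ 1`), and by S_K2
`∫ τ gr H ≤ 2 ∫ τ R 2 ‖hl H‖ ≤ 2 ρ^(2ν) ∫ ((1 + R)² + ‖hl H‖²)`, because `τ R ≤ ρ^(2ν) R^(1-2ν) ≤ ρ^(2ν) (1 + R)`;
`∫ (1+R)² ≤ 2 + 2 ε² + 2 ∫ ‖H‖² ≤ 4 + 4/κ² + 4 A²`. -/
def S_ONE : Prop := ∃ m : ℕ → ℝ, Tendsto m atTop (𝓝 0) ∧
  ∀ (U p : ℂ → ℂ) (c : ℂ → ℝ) (A η K e : ℝ), SP U → SP p → SP c → 1 ≤ A → 0 < η → 0 ≤ K → 0 ≤ e →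
  (∀ z, ‖U z‖ ≤ A ∧ ‖hl U z‖ ≤ A ∧ ‖zb U z‖ ≤ A) → (∀ z, ‖p z‖ ≤ c z) → (∀ z, c z ≤ 1 - η) →
  (∀ z, |dx c z| ≤ K ∧ |dy c z| ≤ K ∧ ‖dx p z‖ ≤ K ∧ ‖dy p z‖ ≤ K) →
  (∀ z, |c z - min ‖zb U z‖ 1| ≤ e) → (∀ z, ‖p z - Pj (zb U z)‖ ≤ e) →
  ∀ (ν κ ρ ε : ℝ) (n : ℕ), 0 < ν → ν ≤ 1 / 4 → 0 < κ → κ ≤ 1 → 0 < ρ → ρ ≤ 1 → 0 < ε → ε ≤ 1 →
  -(ν / η * (1 + A)) - 5 * K * ρ ^ ν * (1 + 10 * (1 + 1 / κ ^ 2 + A ^ 2)) - 2 * κ * A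
      - |m n| * (6 / ε * (3 + 2 / κ ^ 2 + 4 * A ^ 2) + 4 * K)
      - 2 * (ε + (Real.sqrt ε / ρ) ^ (2 * ν)) - 4 * e * (A + 1) ≤
    ∫ z in Q, psi ‖hl U z‖ ‖zb U z‖

/-- PACKET MAIN (may assume S_ONE, S_PC, S_SPB).  Given `x > 0` choose `e` with `4 e (A+1) ≤ x`, then `p`, `c`, `η`, `K`
from S_PC for `z0 = zb U`, then `ν`, `κ`, `ρ`, `ε`, `n` in this order: the integral is `≥ - 6 x`. -/
def S_MAIN : Prop := ∀ U : ℂ → ℂ, SP U → 0 ≤ ∫ z in Q, psi ‖hl U z‖ ‖zb U z‖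

/-- PACKET PEX (periodic extension).  `V z = U (Int.fract z.re + i Int.fract z.im)`; near a point with both fractional
parts positive it is a translate of `U`, near the other points it is `0`. -/
def S_PEX : Prop := ∀ U : ℂ → ℂ, ContDiff ℝ ∞ U → tsupport U ⊆ Ioo 0 1 ×ℂ Ioo 0 1 →
  ∃ V : ℂ → ℂ, SP V ∧ ∀ z ∈ Ioo 0 1 ×ℂ Ioo 0 1, V =ᶠ[𝓝 z] U

/-- The core inequality for complex potentials. -/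
def CORE_C : Prop := ∀ U : ℂ → ℂ, ContDiff ℝ ∞ U → HasCompactSupport U →
  0 ≤ ∫ z, psi ‖dz (fun w => 2 * db U w) z‖ ‖db (fun w => 2 * db U w) z‖

/-- PACKET TRA (may assume S_MAIN, S_PEX).  For `C²` functions `dz (2 db U) = hl U`, `db (2 db U) = zb U` (symmetry of the
second derivative).  `U₁ z = l⁻² U (l (z - w0))` with `l` large, `w0 = (1+i)/2`, has compact support in the open unit
square, `hl U₁ z = hl U (l (z - w0))` etc.; periodic extension `V` (S_PEX); `∫_Q psi(V) = ∫_Q psi(U₁)` (the boundary is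
a null set) `= ∫ psi(U₁) = l⁻² ∫ psi(U)` (`psi 0 0 = 0`). -/
def S_TRA : Prop := S_MAIN → S_PEX → CORE_C

end

end Pool.Agent.Helper82.IW
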