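import Pool.Agent.Helper82.IW.Basic
import Pool.Agent.Helper30.Brouwer.Kakutani

/-!
# Iwaniec's conjecture, IW: Galerkin step
-/

open Complex MeasureTheory Set Filter Topology
open scoped ContDiff ComplexConjugate

namespace Pool.Agent.Helper82.IW

open Pool.Agent.Helper28.BA (dz db psi)

noncomputable section

/-- Extension by zero. -/
def ext (n : ℕ) (c : (box n) → ℂ) (k : ℤ × ℤ) : ℂ := if h : k ∈ box n then c ⟨k, h⟩ else 0

theorem ext_mem {n : ℕ} (c : (box n) → ℂ) {k : ℤ × ℤ} (h : k ∈ box n) :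
    ext n c k = c ⟨k, h⟩ := by simp [ext, h]

theorem ext_cont (n : ℕ) (k : ℤ × ℤ) : Continuous fun c : (box n) → ℂ => ext n c k := by
  unfold ext
  split_ifs with h
  · exact continuous_apply _
  · exact continuous_const

theorem ex_cont (k : ℤ × ℤ) : Continuous (ex k) := by
  unfold ex
  fun_prop

theorem ex_norm (k : ℤ × ℤ) (z : ℂ) : ‖ex k z‖ = 1 := by
  unfold ex
  exact Complex.norm_exp_ofReal_mul_I _

theorem tp_cont2 (n : ℕ) (f : ℤ × ℤ → ℂ) :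
    Continuous fun x : ((box n) → ℂ) × ℂ => tp n (fun k => f k * ext n x.1 k) x.2 := by
  unfold tp
  refine continuous_finsetSum _ fun k _ => ?_
  exact (continuous_const.mul ((ext_cont n k).comp continuous_fst)).mul
    ((ex_cont k).comp continuous_snd)

/-- The nonlinearity, as a function of the coefficients and of the point. -/
def gj (n : ℕ) (ε : ℝ) (U : ℂ → ℂ) (x : ((box n) → ℂ) × ℂ) : ℂ :=
  Gf ε U (tp n (ext n x.1)) x.2

theorem gj_cont (hTPD : S_TPD) (n : ℕ) {ε : ℝ} {U : ℂ → ℂ} (hε : 0 < ε) (hU : Continuous U) :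
    Continuous (gj n ε U) := by
  have hWj : Continuous fun x : ((box n) → ℂ) × ℂ => tp n (ext n x.1) x.2 := by
    have := tp_cont2 n (fun _ => 1)
    simpa using this
  have hZj : Continuous fun x : ((box n) → ℂ) × ℂ => zb (tp n (ext n x.1)) x.2 := by
    have h1 : (fun x : ((box n) → ℂ) × ℂ => zb (tp n (ext n x.1)) x.2) = fun x =>
        tp n (fun k => -(2 * (Real.pi : ℂ) ^ 2 * ((k.1 : ℂ) + I * (k.2 : ℂ)) ^ 2) *
          ext n x.1 k) x.2 := by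
      funext x
      exact (hTPD n (ext n x.1)).2.2 x.2
    rw [h1]
    exact tp_cont2 n _
  unfold gj Gf Rr
  have hU2 : Continuous fun x : ((box n) → ℂ) × ℂ => U x.2 := hU.comp continuous_snd
  have h2 : Continuous fun x : ((box n) → ℂ) × ℂ =>
      ((max (1 - ‖zb (tp n (ext n x.1)) x.2‖) 0 : ℝ) : ℂ) :=
    Complex.continuous_ofReal.comp ((continuous_const.sub hZj.norm).max continuous_const)
  have h3 : Continuous fun x : ((box n) → ℂ) × ℂ =>
      ((Real.sqrt (‖tp n (ext n x.1) x.2 - U x.2‖ ^ 2 + ε ^ 2) : ℝ) : ℂ) :=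
    Complex.continuous_ofReal.comp
      (((hWj.sub hU2).norm.pow 2).add continuous_const).sqrt
  refine h2.mul ((hWj.sub hU2).div h3 (fun x => ?_))
  have : 0 < Real.sqrt (‖tp n (ext n x.1) x.2 - U x.2‖ ^ 2 + ε ^ 2) :=
    Real.sqrt_pos.2 (by positivity)
  exact_mod_cast this.ne'

theorem gj_eq (n : ℕ) (ε : ℝ) (U : ℂ → ℂ) (c : (box n) → ℂ) (w : ℂ) :
    gj n ε U (c, w) = Gf ε U (tp n (ext n c)) w := rfl

theorem G_cont (hTPD : S_TPD) (n : ℕ) {ε : ℝ} {U : ℂ → ℂ} (hε : 0 < ε) (hU : Continuous U)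
    (c : (box n) → ℂ) : Continuous (Gf ε U (tp n (ext n c))) := by
  have h1 : Continuous fun w : ℂ => ((c, w) : ((box n) → ℂ) × ℂ) := by fun_prop
  have h2 := (gj_cont hTPD n hε hU).comp h1
  have h3 : Gf ε U (tp n (ext n c)) = (gj n ε U) ∘ fun w : ℂ => ((c, w) : ((box n) → ℂ) × ℂ) := by
    funext w
    rw [Function.comp_apply, gj_eq]
  rw [h3]
  exact h2

/-- The Galerkin map. -/
def Phi (n : ℕ) (κ ε : ℝ) (U : ℂ → ℂ) (K : ℤ × ℤ → ℝ) (c : (box n) → ℂ) (k : box n) : ℂ :=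
  (K k : ℂ) * (∫ w in Q, conj (ex k w) * gj n ε U (c, w)) /
    (-(2 * (Real.pi : ℂ) ^ 2 * (((k : ℤ × ℤ).1 : ℂ) ^ 2 + ((k : ℤ × ℤ).2 : ℂ) ^ 2)) - κ)

theorem den_le {κ : ℝ} (hκ : 0 < κ) (k : ℤ × ℤ) :
    κ ≤ ‖-(2 * (Real.pi : ℂ) ^ 2 * ((k.1 : ℂ) ^ 2 + (k.2 : ℂ) ^ 2)) - κ‖ := by
  have h1 : -(2 * (Real.pi : ℂ) ^ 2 * ((k.1 : ℂ) ^ 2 + (k.2 : ℂ) ^ 2)) - κ =
      ((-(2 * Real.pi ^ 2 * ((k.1 : ℝ) ^ 2 + (k.2 : ℝ) ^ 2)) - κ : ℝ) : ℂ) := by
    push_cast; ring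
  have h2 : 0 ≤ 2 * Real.pi ^ 2 * ((k.1 : ℝ) ^ 2 + (k.2 : ℝ) ^ 2) := by positivity
  rw [h1, Complex.norm_real, Real.norm_eq_abs, abs_of_nonpos (by linarith)]
  linarith

theorem Phi_cont (hTPD : S_TPD) (n : ℕ) {κ ε : ℝ} {U : ℂ → ℂ} (hε : 0 < ε) (hU : Continuous U)
    (K : ℤ × ℤ → ℝ) : Continuous (Phi n κ ε U K) := by
  refine continuous_pi fun k => ?_
  have h1 : Continuous fun c : (box n) → ℂ =>
      ∫ w in Q, conj (ex k w) * gj n ε U (c, w) := by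
    refine continuous_parametric_integral_of_continuous ?_ isCompact_Q
    exact ((Complex.continuous_conj.comp (ex_cont k)).comp continuous_snd).mul
      (gj_cont hTPD n hε hU)
  exact (continuous_const.mul h1).div_const _

theorem Phi_le (hQ : volume Q = 1) (n : ℕ) {κ ε : ℝ} {U : ℂ → ℂ} (hκ : 0 < κ) (hε : 0 < ε)
    {K : ℤ × ℤ → ℝ} (hK : ∀ k, 0 ≤ K k ∧ K k ≤ 1) (c : (box n) → ℂ) :
    ‖Phi n κ ε U K c‖ ≤ 1 / κ := by
  refine (pi_norm_le_iff_of_nonneg (by positivity)).2 fun k => ?_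
  have h1 : ‖∫ w in Q, conj (ex k w) * gj n ε U (c, w)‖ ≤ 1 := by
    have h2 := norm_setIntegral_le_of_norm_le_const (μ := volume) (s := Q) (C := 1)
      (f := fun w => conj (ex k w) * gj n ε U (c, w)) (by rw [hQ]; simp)
      (fun w _ => by
        rw [norm_mul, RCLike.norm_conj, ex_norm, one_mul, gj_eq]
        exact Gf_le hε U _ w)
    simpa [Measure.real, hQ] using h2
  have h3 : ‖(K k : ℂ)‖ ≤ 1 := by
    rw [Complex.norm_real, Real.norm_eq_abs, abs_of_nonneg (hK k).1]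
    exact (hK k).2
  unfold Phi
  rw [norm_div, norm_mul]
  calc _ ≤ 1 * 1 / κ := by
        gcongr
        exact den_le hκ k
    _ = 1 / κ := by ring

theorem GAL (hINT : S_INT) (hMO1 : S_MO1) (hTPD : S_TPD) : S_GAL := by
  intro n κ ε U hκ hε hU
  obtain ⟨K, hK, hMo⟩ := hMO1 n
  obtain ⟨c, -, hc⟩ := Pool.Agent.Helper30.Brouwer.brouwer_fd (Metric.closedBall 0 (1 / κ))
    (isCompact_closedBall _ _) (convex_closedBall _ _)
    (Metric.nonempty_closedBall.2 (by positivity)) (Phi n κ ε U K)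
    (Phi_cont hTPD n hε hU K).continuousOn
    (fun c _ => mem_closedBall_zero_iff.2 (Phi_le hINT.2.2.2.2 n hκ hε hK c))
  refine ⟨ext n c, fun z => ?_⟩
  rw [hMo _ (G_cont hTPD n hε hU c) z, (hTPD n (ext n c)).2.1 z]
  have key : ∀ k (hk : k ∈ box n),
      (-(2 * (Real.pi : ℂ) ^ 2 * ((k.1 : ℂ) ^ 2 + (k.2 : ℂ) ^ 2)) - κ) * c ⟨k, hk⟩ =
      (K k : ℂ) * ∫ w in Q, conj (ex k w) * Gf ε U (tp n (ext n c)) w := by
    intro k hk
    have h1 : c ⟨k, hk⟩ = Phi n κ ε U K c ⟨k, hk⟩ := by rw [hc]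
    have h0 : (-(2 * (Real.pi : ℂ) ^ 2 * ((k.1 : ℂ) ^ 2 + (k.2 : ℂ) ^ 2)) - κ) ≠ 0 := by
      intro h
      have := den_le hκ k
      rw [h, norm_zero] at this
      linarith
    rw [h1]
    unfold Phi
    simp only [gj_eq]
    rw [mul_div_cancel₀ _ h0]
  generalize Gf ε U (tp n (ext n c)) = G at key
  unfold tp
  rw [Finset.mul_sum, ← Finset.sum_sub_distrib]
  refine Finset.sum_congr rfl fun k hk => ?_
  beta_reduce
  rw [← key k hk, ext_mem c hk]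
  ring

end

end Pool.Agent.Helper82.IW
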