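import Pool.Agent.Helper82.IW.One2

/-!
# Iwaniec's conjecture, IW: packet ONE, third part
-/

open Complex MeasureTheory Set Filter Topology
open scoped ContDiff ComplexConjugate

namespace Pool.Agent.Helper82.IW

open Pool.Agent.Helper28.BA (dz db psi)

noncomputable section

/-- The term `∫ τ √(gr H)`. -/
theorem tau_term (hQ : volume Q = 1) (hSPB : S_SPB) (hK2 : S_K2)
    {ε ν ρ κ A : ℝ} (hε : 0 < ε) (hε1 : ε ≤ 1) (hν : 0 < ν) (hν1 : ν ≤ 1 / 4) (hρ : 0 < ρ)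
    {H : ℂ → ℂ} (hH : SP H)
    (h1 : ∫ z in Q, ‖H z‖ ^ 2 ≤ 2 / κ ^ 2 + 2 * A ^ 2)
    (h2 : ∫ z in Q, ‖hl H z‖ ^ 2 ≤ 2 + 2 * A ^ 2) :
    ∫ z in Q, ta ν ρ (Rr ε H z) * Real.sqrt (gr H z) ≤
      ρ ^ ν * (1 + 10 * (1 + 1 / κ ^ 2 + A ^ 2)) := by
  have hHc := hH.cont
  have hhc := hl_cont hSPB hH
  have hdx := (hSPB.1 _ hH).1.cont
  have hdy := (hSPB.1 _ hH).2.1.cont
  have hRc : Continuous (Rr ε H) := Rr_cont hHc
  have htc : Continuous fun z => ta ν ρ (Rr ε H z) := ta_cont hε hν hρ hHc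
  have hgc : Continuous (gr H) := by
    unfold gr
    fun_prop
  have hg0 : ∀ z, 0 ≤ gr H z := fun z => by unfold gr; positivity
  have hθ : 0 < ρ ^ ν := Real.rpow_pos_of_pos hρ ν
  have hθ2 : ρ ^ (2 * ν) = ρ ^ ν * ρ ^ ν := by
    rw [← Real.rpow_add hρ]
    ring_nf
  set θ : ℝ := ρ ^ ν with hθdef
  -- S_K2
  have k2 := hK2 ε ν ρ H hε hν hν1 hρ hH
  have k3 : ∫ z in Q, ta ν ρ (Rr ε H z) * ‖H z‖ * (2 * ‖hl H z‖) ≤
      ∫ z in Q, θ * θ * (2 + 2 * ε ^ 2 + (2 * ‖H z‖ ^ 2 + ‖hl H z‖ ^ 2)) := by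
    refine Q_mono (by fun_prop) (by fun_prop) (fun z => ?_)
    have hR := Rr_pos hε H z
    have t0 := ta_nonneg ν hρ hR.le
    have a1 : ta ν ρ (Rr ε H z) * ‖H z‖ ≤ ta ν ρ (Rr ε H z) * Rr ε H z :=
      mul_le_mul_of_nonneg_left (norm_le_Rr ε H z) t0
    have a2 := ta_mul_le hν hν1 hρ hR
    rw [hθ2] at a2
    have a3 : ta ν ρ (Rr ε H z) * ‖H z‖ * (2 * ‖hl H z‖) ≤
        (θ * θ * (1 + Rr ε H z)) * (2 * ‖hl H z‖) :=
      mul_le_mul_of_nonneg_right (a1.trans a2) (by positivity)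
    have a4 : (1 + Rr ε H z) * (2 * ‖hl H z‖) ≤
        2 + 2 * ε ^ 2 + (2 * ‖H z‖ ^ 2 + ‖hl H z‖ ^ 2) := by
      have := Rr_sq ε H z
      nlinarith [sq_nonneg (1 + Rr ε H z - ‖hl H z‖), sq_nonneg (1 - Rr ε H z)]
    calc _ ≤ (θ * θ * (1 + Rr ε H z)) * (2 * ‖hl H z‖) := a3
      _ = θ * θ * ((1 + Rr ε H z) * (2 * ‖hl H z‖)) := by ring
      _ ≤ _ := mul_le_mul_of_nonneg_left a4 (by positivity)
  have k4 : ∫ z in Q, θ * θ * (2 + 2 * ε ^ 2 + (2 * ‖H z‖ ^ 2 + ‖hl H z‖ ^ 2)) =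
      θ * θ * (2 + 2 * ε ^ 2 + (2 * (∫ z in Q, ‖H z‖ ^ 2) + ∫ z in Q, ‖hl H z‖ ^ 2)) := by
    rw [Q_mul, Q_add (by fun_prop) (by fun_prop), Q_const hQ,
      Q_add (by fun_prop) (by fun_prop), Q_mul]
  have k5 : θ * θ * (2 + 2 * ε ^ 2 + (2 * (∫ z in Q, ‖H z‖ ^ 2) + ∫ z in Q, ‖hl H z‖ ^ 2)) ≤
      θ * θ * (6 + 4 / κ ^ 2 + 6 * A ^ 2) := by
    apply mul_le_mul_of_nonneg_left _ (by positivity)
    have h3 : ε ^ 2 ≤ 1 := pow_le_one₀ hε.le hε1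
    have h4 : 4 / κ ^ 2 = 2 * (2 / κ ^ 2) := by ring
    rw [h4]
    linarith
  -- Young
  have y1 : ∫ z in Q, ta ν ρ (Rr ε H z) * Real.sqrt (gr H z) ≤
      ∫ z in Q, (θ / 2 + 1 / (2 * θ) * (ta ν ρ (Rr ε H z) * gr H z)) := by
    refine Q_mono (by fun_prop) (by fun_prop) (fun z => ?_)
    have hR := Rr_pos hε H z
    have t0 := ta_nonneg ν hρ hR.le
    have t1 := ta_le ν hρ hR.le
    set t := ta ν ρ (Rr ε H z)
    set s := Real.sqrt (gr H z) with hs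
    have hs2 : s ^ 2 = gr H z := Real.sq_sqrt (hg0 z)
    have hs0 : 0 ≤ s := Real.sqrt_nonneg _
    rw [← hs2]
    have e1 : s ≤ θ / 2 + 1 / (2 * θ) * s ^ 2 := by
      have : θ / 2 + 1 / (2 * θ) * s ^ 2 - s = (θ - s) ^ 2 / (2 * θ) := by
        field_simp
        ring
      have h5 : 0 ≤ (θ - s) ^ 2 / (2 * θ) := by positivity
      linarith
    have e2 : t * s ≤ t * (θ / 2 + 1 / (2 * θ) * s ^ 2) := mul_le_mul_of_nonneg_left e1 t0
    have e3 : t * (θ / 2) ≤ 1 * (θ / 2) := mul_le_mul_of_nonneg_right t1 (by positivity)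
    have e4 : t * (θ / 2 + 1 / (2 * θ) * s ^ 2) = t * (θ / 2) + 1 / (2 * θ) * (t * s ^ 2) := by
      ring
    linarith
  have y2 : ∫ z in Q, (θ / 2 + 1 / (2 * θ) * (ta ν ρ (Rr ε H z) * gr H z)) =
      θ / 2 + 1 / (2 * θ) * ∫ z in Q, ta ν ρ (Rr ε H z) * gr H z := by
    rw [Q_add (by fun_prop) (by fun_prop), Q_const hQ, Q_mul]
  have y3 : 1 / (2 * θ) * ∫ z in Q, ta ν ρ (Rr ε H z) * gr H z ≤
      1 / (2 * θ) * (2 * (θ * θ * (6 + 4 / κ ^ 2 + 6 * A ^ 2))) := by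
    apply mul_le_mul_of_nonneg_left _ (by positivity)
    linarith
  have y4 : 1 / (2 * θ) * (2 * (θ * θ * (6 + 4 / κ ^ 2 + 6 * A ^ 2))) =
      θ * (6 + 4 / κ ^ 2 + 6 * A ^ 2) := by
    field_simp
  have y5 : θ / 2 + θ * (6 + 4 / κ ^ 2 + 6 * A ^ 2) ≤
      θ * (1 + 10 * (1 + 1 / κ ^ 2 + A ^ 2)) := by
    have h6 : θ / 2 + θ * (6 + 4 / κ ^ 2 + 6 * A ^ 2) =
        θ * (1 / 2 + 6 + 4 * (1 / κ ^ 2) + 6 * A ^ 2) := by ring
    rw [h6]
    apply mul_le_mul_of_nonneg_left _ hθ.le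
    have h7 : 0 ≤ 1 / κ ^ 2 := by positivity
    nlinarith [sq_nonneg A]
  linarith

theorem Bf_cont {ε ν ρ : ℝ} (hε : 0 < ε) (hν : 0 < ν) (hρ : 0 < ρ) {c : ℂ → ℝ} {H : ℂ → ℂ}
    (hc : Continuous c) (hH : Continuous H) : Continuous (Bf ε ν ρ c H) := by
  unfold Bf
  have h1 := ta_cont hε hν hρ hH
  have h3 : Continuous (Rr ε H) := Rr_cont hH
  refine Continuous.mul (by fun_prop) ?_
  refine hH.div (by fun_prop) (fun z => ?_)
  have := (Rr_pos hε H z).ne'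
  exact_mod_cast this

/-- Integral of the right side of the pointwise inequality. -/
theorem six {g1 g2 g3 g4 g5 g6 : ℂ → ℝ} (hQ : volume Q = 1) (h1 : Continuous g1)
    (h2 : Continuous g2) (h3 : Continuous g3) (h4 : Continuous g4) (h5 : Continuous g5)
    (h6 : Continuous g6) (a b : ℝ) :
    Continuous (fun z => (g1 z - g2 z) + (2 * g3 z + (-g4 z + 2 * g5 z) + (a + b * g6 z))) ∧
    ∫ z in Q, ((g1 z - g2 z) + (2 * g3 z + (-g4 z + 2 * g5 z) + (a + b * g6 z))) =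
      ((∫ z in Q, g1 z) - ∫ z in Q, g2 z) + (2 * (∫ z in Q, g3 z) +
        (-(∫ z in Q, g4 z) + 2 * ∫ z in Q, g5 z) + (a + b * ∫ z in Q, g6 z)) := by
  refine ⟨by fun_prop, ?_⟩
  have n1 : ∫ z in Q, -g4 z = -∫ z in Q, g4 z := integral_neg _
  rw [Q_add (by fun_prop) (by fun_prop), Q_sub (by fun_prop) (by fun_prop),
    Q_add (by fun_prop) (by fun_prop), Q_add (by fun_prop) (by fun_prop), Q_mul,
    Q_add (by fun_prop) (by fun_prop), n1, Q_mul, Q_add (by fun_prop) (by fun_prop),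
    Q_const hQ, Q_mul]

theorem ONE (hALG : S_ALG) (hINT : S_INT) (hSPB : S_SPB) (hPL : S_PL) (hK2 : S_K2) (hK3 : S_K3)
    (hMO1 : S_MO1) (hMO2 : S_MO2) (hMO3 : S_MO3) (hMO4 : S_MO4) (hTPD : S_TPD) (hGAL : S_GAL)
    (hBD : S_BD) : S_ONE := by
  obtain ⟨m, hm0, hm⟩ := hMO4
  refine ⟨m, hm0, ?_⟩
  intro U p c A η K e hU hp hc hA hη hK he hUA hpc hcη hKK hce hpe ν κ ρ ε n hν hν1 hκ hκ1 hρ hρ1
    hε hε1
  have hQ : volume Q = 1 := hINT.2.2.2.2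
  obtain ⟨c', hW⟩ := hGAL n κ ε U hκ hε hU.cont
  have hWSP : SP (tp n c') := (hTPD n c').1
  set W : ℂ → ℂ := tp n c' with hWdef
  have hH : SP (fun w => W w - U w) := hWSP.sub hU
  have hc0 : ∀ z, 0 ≤ c z ∧ c z ≤ 1 := fun z =>
    ⟨(norm_nonneg _).trans (hpc z), (hcη z).trans (by linarith)⟩
  have hGc : Continuous (Gf ε U W) := Gf_cont hSPB hε hU.cont hWSP
  -- energy
  have hen := energy hSPB hPL hMO3 hε hκ hU hWSP hW
  have hG1 : ∫ z in Q, ‖Gf ε U W z‖ ^ 2 ≤ 1 := by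
    refine Q_le hQ (by fun_prop) (fun z => ?_)
    exact pow_le_one₀ (norm_nonneg _) (Gf_le hε U W z)
  have hW0 : 0 ≤ κ ^ 2 * ∫ z in Q, ‖W z‖ ^ 2 :=
    mul_nonneg (by positivity) (integral_nonneg fun z => by positivity)
  have hZ0 : 0 ≤ ∫ z in Q, ‖zb W z‖ ^ 2 := integral_nonneg fun z => by positivity
  have hWk : κ ^ 2 * (∫ z in Q, ‖W z‖ ^ 2) ≤ 1 := by linarith
  have hZ1 : ∫ z in Q, ‖zb W z‖ ^ 2 ≤ 1 := by linarith
  have hL1 : ∫ z in Q, ‖hl W z‖ ^ 2 ≤ 1 := by rw [(hPL W hWSP).1]; exact hZ1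
  have hGZ : ∫ z in Q, ‖zb W z‖ ^ 2 ≤ ∫ z in Q, ‖Gf ε U W z‖ ^ 2 := by linarith
  have hA' : ∀ z, ‖U z‖ ≤ A ∧ ‖hl U z‖ ≤ A := fun z => ⟨(hUA z).1, (hUA z).2.1⟩
  obtain ⟨hb1, hb2, hb3⟩ := H_bounds hQ hSPB hκ hU hWSP hA' hWk hL1
  have hzW := zb_cont hSPB hWSP
  have hzU := zb_cont hSPB hU
  have hlW := hl_cont hSPB hWSP
  have hlU := hl_cont hSPB hU
  have hZn : ∫ z in Q, ‖zb W z‖ ≤ 1 := int_le_one hQ hzW.norm hZ1
  -- kernel term
  have hC := kernel_term (ρ := ρ) hQ hSPB hPL hMO1 hMO2 hTPD hBD hm hε hκ hν hν1 hρ hK hU hWSP hc hc0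
    (fun z => ⟨(hKK z).1, (hKK z).2.1⟩) hA' hW hWk hL1
  -- tau term
  have hE := tau_term (κ := κ) (A := A) hQ hSPB hK2 hε hε1 hν hν1 hρ hH hb1 hb2
  -- K3
  have hD := hK3 ε ν ρ η K (fun w => W w - U w) p c hε hν hρ hη hK hH hp hc hpc hcη hKK
  -- pointwise
  have hP := fun z => point (ν := ν) (ρ := ρ) (W := W) hALG hε hν hρ he (hUA z).2.1 (hUA z).2.2
    (hce z) (hpe z)
  set H : ℂ → ℂ := fun w => W w - U w with hHdef
  set G : ℂ → ℂ := Gf ε U W with hGdef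
  set B : ℂ → ℂ := Bf ε ν ρ c H with hBdef
  set T : ℂ → ℝ := fun z => ta ν ρ (Rr ε H z) with hTdef
  have hTc : Continuous T := ta_cont hε hν hρ hH.cont
  have hBc : Continuous B := Bf_cont hε hν hρ hc.cont hH.cont
  have hcon : Continuous (fun z : ℂ => conj z) := Complex.continuous_conj
  have cB : Continuous fun z => conj (B z) := hcon.comp hBc
  have hpcn := hp.cont
  have cp : Continuous fun z => conj (p z) := hcon.comp hpcn
  have hzH := zb_cont hSPB hH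
  have hlH := hl_cont hSPB hH
  have cG := hGc
  -- integrate
  have hP' : ∀ z, ((‖G z‖ ^ 2 - ‖zb W z‖ ^ 2) +
      (2 * (conj (B z) * (hl W z - G z)).re +
        (-(conj (B z) * (2 * hl H z)).re + 2 * (T z * (conj (p z) * zb H z).re)) +
        ((-(2 * (ε + (Real.sqrt ε / ρ) ^ (2 * ν)) + 2 * e * (2 * A + 1))) +
          (-(2 * e)) * ‖zb W z‖))) ≤ psi ‖hl U z‖ ‖zb U z‖ := by
    intro z
    refine le_trans (le_of_eq ?_) (hP z)
    have e1 : hl U z = hl W z - hl H z := by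
      rw [hHdef, hl_sub hSPB hWSP hU]; ring
    have e2 : zb U z = zb W z - zb H z := by
      rw [hHdef, zb_sub hSPB hWSP hU]; ring
    rw [e1, e2]
    have e3 : (conj (B z) * (hl W z - hl H z - G z)).re =
        (conj (B z) * (hl W z - G z)).re - (conj (B z) * hl H z).re := by
      rw [← Complex.sub_re]; congr 1; ring
    have e4 : (conj (-((T z : ℂ) * p z)) * (zb W z - zb H z - zb W z)).re =
        T z * (conj (p z) * zb H z).re := by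
      have : conj (-((T z : ℂ) * p z)) * (zb W z - zb H z - zb W z) =
          (T z : ℂ) * (conj (p z) * zb H z) := by
        rw [map_neg, map_mul, Complex.conj_ofReal]
        ring
      rw [this, Complex.re_ofReal_mul]
    have e5 : (conj (B z) * (2 * hl H z)).re = 2 * (conj (B z) * hl H z).re := by
      have : conj (B z) * (2 * hl H z) = ((2 : ℝ) : ℂ) * (conj (B z) * hl H z) := by
        push_cast; ring
      rw [this, Complex.re_ofReal_mul]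
    have e6 : T z = ta ν ρ (Rr ε H z) := rfl
    rw [← e6, e3, e4, e5]
    ring
  have hD' : -(ν / (4 * η)) * (∫ z in Q, 2 * ‖hl H z‖) -
      5 * K * (∫ z in Q, T z * Real.sqrt (gr H z)) ≤
    -(∫ z in Q, (conj (B z) * (2 * hl H z)).re) +
      2 * ∫ z in Q, T z * (conj (p z) * zb H z).re := hD
  have hE' : ∫ z in Q, T z * Real.sqrt (gr H z) ≤
      ρ ^ ν * (1 + 10 * (1 + 1 / κ ^ 2 + A ^ 2)) := hE
  have hA0 : 0 ≤ A := by linarith
  clear hE hD hP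
  clear_value T B G H W
  have q1 : Continuous fun z => ‖G z‖ ^ 2 := hGc.norm.pow 2
  have q2 : Continuous fun z => ‖zb W z‖ ^ 2 := hzW.norm.pow 2
  have q3 : Continuous fun z => (conj (B z) * (hl W z - G z)).re :=
    Complex.continuous_re.comp (cB.mul (hlW.sub hGc))
  have q4 : Continuous fun z => (conj (B z) * (2 * hl H z)).re :=
    Complex.continuous_re.comp (cB.mul (continuous_const.mul hlH))
  have q5 : Continuous fun z => T z * (conj (p z) * zb H z).re :=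
    hTc.mul (Complex.continuous_re.comp (cp.mul hzH))
  have hsix := six hQ q1 q2 q3 q4 q5 hzW.norm
    (-(2 * (ε + (Real.sqrt ε / ρ) ^ (2 * ν)) + 2 * e * (2 * A + 1))) (-(2 * e))
  have hI := Q_mono hsix.1 (psi_cont hlU.norm hzU.norm) hP'
  rw [hsix.2] at hI
  -- final bookkeeping
  have f1 : ν / (4 * η) * (∫ z in Q, 2 * ‖hl H z‖) ≤ ν / η * (1 + A) := by
    rw [Q_mul]
    have h7 : ν / (4 * η) * (2 * ∫ z in Q, ‖hl H z‖) ≤ ν / (4 * η) * (2 * (1 + A)) := by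
      apply mul_le_mul_of_nonneg_left _ (by positivity)
      linarith
    have h8 : ν / (4 * η) * (2 * (1 + A)) = ν / η * (1 + A) / 2 := by
      field_simp
      ring
    have h9 : 0 ≤ ν / η * (1 + A) := by positivity
    linarith
  have f2 : 5 * K * (∫ z in Q, T z * Real.sqrt (gr H z)) ≤
      5 * K * (ρ ^ ν * (1 + 10 * (1 + 1 / κ ^ 2 + A ^ 2))) :=
    mul_le_mul_of_nonneg_left hE' (by positivity)
  have f3 : 2 * e * (∫ z in Q, ‖zb W z‖) ≤ 2 * e * 1 :=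
    mul_le_mul_of_nonneg_left hZn (by positivity)
  have f4 : 5 * K * ρ ^ ν * (1 + 10 * (1 + 1 / κ ^ 2 + A ^ 2)) =
      5 * K * (ρ ^ ν * (1 + 10 * (1 + 1 / κ ^ 2 + A ^ 2))) := by ring
  rw [f4]
  linarith

end

end Pool.Agent.Helper82.IW
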