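import Pool.Agent.Helper10.IW.TRA
import Pool.Agent.Helper13.IW.QUAD
import Pool.Agent.Helper3.IW.MAIN
import Pool.Agent.Helper31.IW.ALG
import Pool.Agent.Helper32.IW.K3
import Pool.Agent.Helper32.IW.MO3
import Pool.Agent.Helper37.IW.K2
import Pool.Agent.Helper40.IW.K1
import Pool.Agent.Helper42.IW.PEX
import Pool.Agent.Helper46.IW.MO1
import Pool.Agent.Helper46.IW.MO2
import Pool.Agent.Helper49.IW.SPB
import Pool.Agent.Helper65.IW.IB
import Pool.Agent.Helper7.IW.MO4
import Pool.Agent.Helper71.IW.PL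
import Pool.Agent.Helper74.IW.PC
import Pool.Agent.Helper79.IW.KER
import Pool.Agent.Helper82.IW.One3
import Pool.Agent.Helper82.IW.Gal
import Pool.Agent.Helper83.IW.TPD
import Pool.Agent.Helper85.IW.INT
import Pool.Agent.Helper93.IW.BD

/-!
# Iwaniec's conjecture, IW: the core inequality
-/

namespace Pool.Agent.Helper82.IW

theorem quad : S_QUAD := Pool.Agent.Helper13.IW.QUAD
theorem alg : S_ALG := Pool.Agent.Helper31.IW.ALG
theorem int : S_INT := Pool.Agent.Helper85.IW.INT
theorem spb : S_SPB := Pool.Agent.Helper49.IW.SPB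
theorem ib : S_IB := Pool.Agent.Helper65.IW.IB int spb
theorem pl : S_PL := Pool.Agent.Helper71.IW.PL int spb ib
theorem kato1 : S_K1 := Pool.Agent.Helper40.IW.K1 spb ib quad
theorem kato3 : S_K3 := Pool.Agent.Helper32.IW.K3 spb ib quad kato1
theorem ker : S_KER := Pool.Agent.Helper79.IW.KER
theorem mo1 : S_MO1 := Pool.Agent.Helper46.IW.MO1 ker
theorem mo2 : S_MO2 := Pool.Agent.Helper46.IW.MO2 ker mo1
theorem mo3 : S_MO3 := Pool.Agent.Helper32.IW.MO3 ker int
theorem mo4 : S_MO4 := Pool.Agent.Helper7.IW.MO4 ker int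
theorem tpd : S_TPD := Pool.Agent.Helper83.IW.TPD
theorem pc : S_PC := Pool.Agent.Helper74.IW.PC
theorem bd : S_BD := Pool.Agent.Helper93.IW.BD spb quad
theorem pex : S_PEX := Pool.Agent.Helper42.IW.PEX

theorem kato2 : S_K2 := Pool.Agent.Helper37.IW.K2 spb ib quad

theorem gal : S_GAL := GAL int mo1 tpd

/-- The core inequality on the torus. -/
theorem torus : S_MAIN := Pool.Agent.Helper3.IW.MAIN
  (ONE alg int spb pl kato2 kato3 mo1 mo2 mo3 mo4 tpd gal bd) pc spb

/-- The core inequality. -/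
theorem coreC : CORE_C := Pool.Agent.Helper10.IW.TRA torus pex

end Pool.Agent.Helper82.IW
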