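import Pool.Agent.Helper82.IW.Goals

/-!
# Iwaniec's conjecture, IW: basic lemmas for the assembly
-/

open Complex MeasureTheory Set Filter Topology
open scoped ContDiff ComplexConjugate

namespace Pool.Agent.Helper82.IW

open Pool.Agent.Helper28.BA (dz db psi)

noncomputable section

theorem isCompact_Q : IsCompact Q := isCompact_Icc.reProdIm isCompact_Icc

theorem measurableSet_Q : MeasurableSet Q := isCompact_Q.isClosed.measurableSet

theorem intQ {E : Type*} [NormedAddCommGroup E] {f : ℂ → E} (hf : Continuous f) :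
    IntegrableOn f Q := hf.continuousOn.integrableOn_compact isCompact_Q

theorem Q_const (hQ : volume Q = 1) (a : ℝ) : ∫ _z in Q, a = a := by
  simp [Measure.real, hQ]

theorem Q_mono {f g : ℂ → ℝ} (hf : Continuous f) (hg : Continuous g) (h : ∀ z, f z ≤ g z) :
    ∫ z in Q, f z ≤ ∫ z in Q, g z :=
  setIntegral_mono (intQ hf) (intQ hg) h

theorem Q_le (hQ : volume Q = 1) {f : ℂ → ℝ} (hf : Continuous f) {a : ℝ} (h : ∀ z, f z ≤ a) :
    ∫ z in Q, f z ≤ a := by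
  have := Q_mono hf continuous_const h
  rwa [Q_const hQ] at this

theorem Q_add {f g : ℂ → ℝ} (hf : Continuous f) (hg : Continuous g) :
    ∫ z in Q, (f z + g z) = (∫ z in Q, f z) + ∫ z in Q, g z :=
  integral_add (intQ hf) (intQ hg)

theorem Q_sub {f g : ℂ → ℝ} (hf : Continuous f) (hg : Continuous g) :
    ∫ z in Q, (f z - g z) = (∫ z in Q, f z) - ∫ z in Q, g z :=
  integral_sub (intQ hf) (intQ hg)

theorem Q_mul (a : ℝ) (f : ℂ → ℝ) : ∫ z in Q, a * f z = a * ∫ z in Q, f z :=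
  integral_const_mul a f

theorem Q_re {f : ℂ → ℂ} (hf : Continuous f) : ∫ z in Q, (f z).re = (∫ z in Q, f z).re := by
  have := integral_re (𝕜 := ℂ) (intQ hf)
  simpa using this

theorem SP.cont {E : Type*} [NormedAddCommGroup E] [NormedSpace ℝ E] {f : ℂ → E} (h : SP f) :
    Continuous f := h.smooth.continuous

theorem SP.sub {f g : ℂ → ℂ} (hf : SP f) (hg : SP g) : SP fun z => f z - g z where
  smooth := hf.smooth.sub hg.smooth
  per z := by simp only [(hf.per z).1, (hf.per z).2, (hg.per z).1, (hg.per z).2, and_self]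

theorem SP.diff {f : ℂ → ℂ} (hf : SP f) : Differentiable ℝ f :=
  hf.smooth.differentiable (by simp)

theorem dx_sub {f g : ℂ → ℂ} (hf : Differentiable ℝ f) (hg : Differentiable ℝ g) :
    dx (fun z => f z - g z) = fun z => dx f z - dx g z := by
  funext z
  simp only [dx]
  rw [fderiv_fun_sub (hf z) (hg z)]
  rfl

theorem dy_sub {f g : ℂ → ℂ} (hf : Differentiable ℝ f) (hg : Differentiable ℝ g) :
    dy (fun z => f z - g z) = fun z => dy f z - dy g z := by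
  funext z
  simp only [dy]
  rw [fderiv_fun_sub (hf z) (hg z)]
  rfl

theorem hl_sub (hSPB : S_SPB) {f g : ℂ → ℂ} (hf : SP f) (hg : SP g) (z : ℂ) :
    hl (fun z => f z - g z) z = hl f z - hl g z := by
  simp only [hl]
  rw [dx_sub hf.diff hg.diff, dy_sub hf.diff hg.diff,
    dx_sub (hSPB.1 f hf).1.diff (hSPB.1 g hg).1.diff,
    dy_sub (hSPB.1 f hf).2.1.diff (hSPB.1 g hg).2.1.diff]
  ring

theorem zb_sub (hSPB : S_SPB) {f g : ℂ → ℂ} (hf : SP f) (hg : SP g) (z : ℂ) :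
    zb (fun z => f z - g z) z = zb f z - zb g z := by
  simp only [zb]
  rw [dx_sub hf.diff hg.diff, dy_sub hf.diff hg.diff,
    dx_sub (hSPB.1 f hf).1.diff (hSPB.1 g hg).1.diff,
    dy_sub (hSPB.1 f hf).2.1.diff (hSPB.1 g hg).2.1.diff,
    dx_sub (hSPB.1 f hf).2.1.diff (hSPB.1 g hg).2.1.diff]
  ring

theorem Rr_pos {ε : ℝ} (hε : 0 < ε) (H : ℂ → ℂ) (z : ℂ) : 0 < Rr ε H z :=
  Real.sqrt_pos.2 (by positivity)

theorem Rr_sq (ε : ℝ) (H : ℂ → ℂ) (z : ℂ) : Rr ε H z ^ 2 = ‖H z‖ ^ 2 + ε ^ 2 :=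
  Real.sq_sqrt (by positivity)

theorem norm_le_Rr (ε : ℝ) (H : ℂ → ℂ) (z : ℂ) : ‖H z‖ ≤ Rr ε H z :=
  Real.le_sqrt_of_sq_le (by nlinarith [sq_nonneg ε])

theorem le_Rr {ε : ℝ} (H : ℂ → ℂ) (z : ℂ) : ε ≤ Rr ε H z :=
  Real.le_sqrt_of_sq_le (by nlinarith [sq_nonneg ‖H z‖])

theorem Rr_cont {ε : ℝ} {H : ℂ → ℂ} (hH : Continuous H) : Continuous (Rr ε H) := by
  unfold Rr
  fun_prop

theorem beta_norm {ε : ℝ} (hε : 0 < ε) (H : ℂ → ℂ) (z : ℂ) :
    ‖H z / (Rr ε H z : ℂ)‖ = ‖H z‖ / Rr ε H z := by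
  rw [norm_div, Complex.norm_real, Real.norm_eq_abs, abs_of_pos (Rr_pos hε H z)]

theorem beta_le {ε : ℝ} (hε : 0 < ε) (H : ℂ → ℂ) (z : ℂ) :
    ‖H z / (Rr ε H z : ℂ)‖ ≤ 1 := by
  rw [beta_norm hε, div_le_one (Rr_pos hε H z)]
  exact norm_le_Rr ε H z

theorem ta_nonneg (ν : ℝ) {ρ r : ℝ} (hρ : 0 < ρ) (hr : 0 ≤ r) : 0 ≤ ta ν ρ r := by
  unfold ta
  have := Real.rpow_nonneg (div_nonneg hr hρ.le) (2 * ν)
  positivity

theorem ta_le (ν : ℝ) {ρ r : ℝ} (hρ : 0 < ρ) (hr : 0 ≤ r) : ta ν ρ r ≤ 1 := by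
  unfold ta
  have := Real.rpow_nonneg (div_nonneg hr hρ.le) (2 * ν)
  rw [div_le_one (by positivity)]
  linarith

theorem one_sub_ta_le (ν : ℝ) {ρ r : ℝ} (hρ : 0 < ρ) (hr : 0 ≤ r) :
    1 - ta ν ρ r ≤ (r / ρ) ^ (2 * ν) := by
  unfold ta
  have h := Real.rpow_nonneg (div_nonneg hr hρ.le) (2 * ν)
  have h1 : 1 - 1 / (1 + (r / ρ) ^ (2 * ν)) = (r / ρ) ^ (2 * ν) / (1 + (r / ρ) ^ (2 * ν)) := by
    field_simp
    ring
  rw [h1]
  exact div_le_self h (by linarith)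

/-- `τ r ≤ ρ^(2ν) (1 + r)`. -/
theorem ta_mul_le {ν ρ r : ℝ} (hν : 0 < ν) (hν1 : ν ≤ 1 / 4) (hρ : 0 < ρ) (hr : 0 < r) :
    ta ν ρ r * r ≤ ρ ^ (2 * ν) * (1 + r) := by
  have h0 : (0 : ℝ) < (r / ρ) ^ (2 * ν) := Real.rpow_pos_of_pos (div_pos hr hρ) _
  have h1 : ta ν ρ r ≤ ((r / ρ) ^ (2 * ν))⁻¹ := by
    unfold ta
    rw [one_div]
    exact inv_anti₀ h0 (by linarith)
  have h2 : ((r / ρ) ^ (2 * ν))⁻¹ * r = ρ ^ (2 * ν) * r ^ (1 - 2 * ν) := by
    rw [Real.div_rpow hr.le hρ.le, Real.rpow_sub hr, Real.rpow_one]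
    have := (Real.rpow_pos_of_pos hr (2 * ν)).ne'
    have := (Real.rpow_pos_of_pos hρ (2 * ν)).ne'
    field_simp
  have h3 : r ^ (1 - 2 * ν) ≤ 1 + r := by
    rcases le_total r 1 with h | h
    · have := Real.rpow_le_one hr.le h (show (0 : ℝ) ≤ 1 - 2 * ν by linarith)
      linarith
    · have := Real.rpow_le_rpow_of_exponent_le h (show 1 - 2 * ν ≤ 1 by linarith)
      rw [Real.rpow_one] at this
      linarith
  calc ta ν ρ r * r ≤ ((r / ρ) ^ (2 * ν))⁻¹ * r := by gcongr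
    _ = ρ ^ (2 * ν) * r ^ (1 - 2 * ν) := h2
    _ ≤ ρ ^ (2 * ν) * (1 + r) := by gcongr

theorem ta_cont {ε ν ρ : ℝ} (hε : 0 < ε) (hν : 0 < ν) (hρ : 0 < ρ) {H : ℂ → ℂ}
    (hH : Continuous H) : Continuous fun z => ta ν ρ (Rr ε H z) := by
  unfold ta
  have h1 : Continuous fun z => (Rr ε H z / ρ) ^ (2 * ν) :=
    ((Rr_cont hH).div_const ρ).rpow_const (fun _ => Or.inr (by linarith))
  refine continuous_const.div (continuous_const.add h1) (fun z => ?_)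
  have := Real.rpow_nonneg (div_nonneg (Rr_pos hε H z).le hρ.le) (2 * ν)
  positivity

theorem psi_cont {f g : ℂ → ℝ} (hf : Continuous f) (hg : Continuous g) :
    Continuous fun z => psi (f z) (g z) := by
  unfold psi
  refine Continuous.if_le (by fun_prop) (by fun_prop) (by fun_prop) (by fun_prop) ?_
  intro z hz
  have : f z ^ 2 - g z ^ 2 = (f z + g z) * (f z - g z) := by ring
  rw [this, hz]
  linarith

theorem zb_cont (hSPB : S_SPB) {W : ℂ → ℂ} (hW : SP W) : Continuous (zb W) :=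
  (hSPB.1 W hW).2.2.2.1.cont

theorem hl_cont (hSPB : S_SPB) {W : ℂ → ℂ} (hW : SP W) : Continuous (hl W) :=
  (hSPB.1 W hW).2.2.1.cont

theorem Gf_cont (hSPB : S_SPB) {ε : ℝ} (hε : 0 < ε) {U W : ℂ → ℂ} (hU : Continuous U) (hW : SP W) :
    Continuous (Gf ε U W) := by
  unfold Gf
  have h1 := zb_cont hSPB hW
  have h2 := hW.cont
  have h3 : Continuous (Rr ε fun w => W w - U w) := Rr_cont (h2.sub hU)
  refine Continuous.mul (by fun_prop) ?_
  refine (h2.sub hU).div (by fun_prop) (fun z => ?_)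
  have := (Rr_pos hε (fun w => W w - U w) z).ne'
  exact_mod_cast this

theorem Gf_per (hSPB : S_SPB) {ε : ℝ} {U W : ℂ → ℂ} (hU : SP U) (hW : SP W) :
    Per (Gf ε U W) := by
  intro z
  have h1 := (hSPB.1 W hW).2.2.2.1.per z
  unfold Gf Rr
  simp only [h1.1, h1.2, (hW.per z).1, (hW.per z).2, (hU.per z).1, (hU.per z).2, and_self]

theorem Gf_le {ε : ℝ} (hε : 0 < ε) (U W : ℂ → ℂ) (z : ℂ) : ‖Gf ε U W z‖ ≤ 1 := by
  unfold Gf
  rw [norm_mul, Complex.norm_real, Real.norm_eq_abs,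
    abs_of_nonneg (le_max_right (1 - ‖zb W z‖) 0)]
  have h1 := beta_le hε (fun w => W w - U w) z
  have h2 : max (1 - ‖zb W z‖) 0 ≤ 1 := max_le (by linarith [norm_nonneg (zb W z)]) zero_le_one
  calc _ ≤ 1 * 1 := mul_le_mul h2 h1 (norm_nonneg _) zero_le_one
    _ = 1 := one_mul 1

end

end Pool.Agent.Helper82.IW
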