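import Pool.Agent.Helper82.IW.Goals
import Pool.Agent.Helper28.BA.Final

/-!
# Iwaniec's conjecture, IW: from the core inequality to the norms
-/

open Complex MeasureTheory Set Filter Topology
open scoped ContDiff

namespace Pool.Agent.Helper82.IW

open Pool.Agent.Helper28.BA

/-- The sharp inequality for `f = 2 ∂̄U`, `1 < q ≤ 2`. -/
theorem potential (h1 : CORE_C) {V : ℂ → ℂ} (hV : ContDiff ℝ ∞ V) (hVc : HasCompactSupport V)
    {q : ℝ} (hq1 : 1 < q) (hq2 : q ≤ 2) :
    ∫ z, ‖db (fun x => 2 * db V x) z‖ ^ q ≤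
      (1 / (q - 1)) ^ q * ∫ z, ‖dz (fun x => 2 * db V x) z‖ ^ q := by
  obtain ⟨g, hg⟩ : ∃ g : ℂ → ℂ, g = fun x => 2 * db V x := ⟨_, rfl⟩
  have hgs : ContDiff ℝ ∞ g := by
    rw [hg]; exact contDiff_const.mul (Helper11.BA.db_smooth hV)
  have hgc : HasCompactSupport g := by
    rw [hg]; exact (Helper11.BA.db_supp hVc).mul_left
  have hg1 : ContDiff ℝ 1 g := contDiff_infty.1 hgs 1
  rw [← hg]
  obtain ⟨S, hS⟩ : ∃ S : ℂ → ℝ, S = fun z => ‖dz g z‖ := ⟨_, rfl⟩
  obtain ⟨D, hD⟩ : ∃ D : ℂ → ℝ, D = fun z => ‖db g z‖ := ⟨_, rfl⟩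
  have hSz : ∀ z, ‖dz g z‖ = S z := fun z => by rw [hS]
  have hDz : ∀ z, ‖db g z‖ = D z := fun z => by rw [hD]
  have cS : Continuous S := by rw [hS]; exact (cont_dz hg1).norm
  have cD : Continuous D := by rw [hD]; exact (cont_db hg1).norm
  have kS : HasCompactSupport S := by rw [hS]; exact (Helper11.BA.dz_supp hgc).norm
  have kD : HasCompactSupport D := by rw [hD]; exact (Helper11.BA.db_supp hgc).norm
  have nS : ∀ z, 0 ≤ S z := fun z => by rw [hS]; exact norm_nonneg _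
  have nD : ∀ z, 0 ≤ D z := fun z => by rw [hD]; exact norm_nonneg _
  have hA : ∀ t : ℝ, 0 < t →
      0 ≤ ∫ z, (if S z + D z ≤ t then S z ^ 2 - D z ^ 2 else 2 * t * S z - t ^ 2) := by
    intro t ht
    have e1 : ContDiff ℝ ∞ fun z => ((t⁻¹ : ℝ) : ℂ) * V z := contDiff_const.mul hV
    have e2 : HasCompactSupport fun z => ((t⁻¹ : ℝ) : ℂ) * V z := hVc.mul_left
    have e3 := h1 _ e1 e2
    have hVd : Differentiable ℝ V := hV.differentiable (by simp)
    have e4 : (fun w => 2 * db (fun z => ((t⁻¹ : ℝ) : ℂ) * V z) w) =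
        fun z => ((t⁻¹ : ℝ) : ℂ) * g z := by
      funext z
      rw [db_const_mul _ (hVd z), hg]
      ring
    rw [e4] at e3
    have e5 : ∀ z, psi ‖dz (fun z => ((t⁻¹ : ℝ) : ℂ) * g z) z‖
        ‖db (fun z => ((t⁻¹ : ℝ) : ℂ) * g z) z‖ =
        t⁻¹ ^ 2 * (if S z + D z ≤ t then S z ^ 2 - D z ^ 2 else 2 * t * S z - t ^ 2) := by
      intro z
      have hd : DifferentiableAt ℝ g z := hg1.differentiable (by norm_num) z
      rw [dz_const_mul _ hd, db_const_mul _ hd, norm_mul, norm_mul, hSz, hDz]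
      have e6 : ‖((t⁻¹ : ℝ) : ℂ)‖ = t⁻¹ := by
        rw [Complex.norm_real, Real.norm_of_nonneg (by positivity)]
      rw [e6]
      unfold psi
      have e7 : (t⁻¹ * S z + t⁻¹ * D z ≤ 1) ↔ (S z + D z ≤ t) := by
        rw [← mul_add, inv_mul_le_iff₀ ht, mul_one]
      simp only [e7]
      split_ifs with h
      · ring
      · field_simp
    simp only [e5] at e3
    rw [integral_const_mul] at e3
    have e8 : 0 < t⁻¹ ^ 2 := by positivity
    exact nonneg_of_mul_nonneg_right e3 e8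
  have iP : ∀ r : ℝ, 0 < r → ∀ F : ℂ → ℝ, Continuous F → HasCompactSupport F → (∀ z, 0 ≤ F z) →
      Integrable fun z => F z ^ r := by
    intro r hr F cF kF nF
    refine Continuous.integrable_of_hasCompactSupport ?_ ?_
    · exact cF.rpow_const fun z => Or.inr hr.le
    · exact kF.comp_left (g := fun x : ℝ => x ^ r) (by simp [hr.ne'])
  simp only [hSz, hDz]
  rcases hq2.lt_or_eq with hq | rfl
  · have f1 := Helper24.BA.TINT q hq1 hq S D cS cD kS kD nS nD hA
    obtain ⟨α, hα, hb⟩ := Helper28.Iw.burk hq1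
    rw [Helper28.Iw.cst_le_two hq1 hq2] at hb
    have hq0 : 0 < q - 1 := by linarith
    have i1 : Integrable fun z => (S z + D z) ^ (q - 1) * (S z - (q - 1) * D z) := by
      refine Continuous.integrable_of_hasCompactSupport ?_ ?_
      · exact ((cS.add cD).rpow_const fun z => Or.inr hq0.le).mul (by fun_prop)
      · exact kS.comp₂_left
          (m := fun x y : ℝ => (x + y) ^ (q - 1) * (x - (q - 1) * y)) kD (by simp)
    have i2 := iP q (by linarith) S cS kS nS
    have i3 := iP q (by linarith) D cD kD nD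
    have f2 : ∫ z, α / (q - 1) * ((S z + D z) ^ (q - 1) * (S z - (q - 1) * D z)) ≤
        ∫ z, ((1 / (q - 1)) ^ q * S z ^ q - D z ^ q) := by
      refine integral_mono (i1.const_mul _) ((i2.const_mul _).sub i3) fun z => ?_
      have f3 := hb (S z) (D z) (nS z) (nD z)
      refine le_trans (le_of_eq ?_) f3
      field_simp
    rw [integral_const_mul, integral_sub (i2.const_mul _) i3, integral_const_mul] at f2
    have f4 : 0 ≤ α / (q - 1) := by positivity
    have f5 := mul_nonneg f4 f1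
    linarith
  · have hB : ∫ z, (S z ^ 2 - D z ^ 2) = 0 := by
      have := Helper91.BA.DET g (lip_of_c1 hg1 hgc) hgc
      simpa only [hSz, hDz] using this
    have i1 := iP 2 (by norm_num) S cS kS nS
    have i2 := iP 2 (by norm_num) D cD kD nD
    simp only [Real.rpow_two] at i1 i2 ⊢
    rw [integral_sub i1 i2] at hB
    norm_num
    linarith

/-- The sharp bound for `1 < q ≤ 2`. -/
theorem bd_le_two (h1 : CORE_C) {q : ℝ} (hq1 : 1 < q) (hq2 : q ≤ 2) : Bd q (1 / (q - 1)) := by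
  have hq' : 0 < q - 1 := by linarith
  have hK : (0 : ℝ) ≤ (1 / (q - 1)) ^ q := by positivity
  have h4 : S_APP := Helper56.BA.APP Helper54.BA.CT
  have h5 : S_MOLL := Helper69.BA.MOLL
  have h6 : S_CLOS := Helper65.BA.CLOS
  have hS : ∀ h : ℂ → ℂ, ContDiff ℝ ∞ h → HasCompactSupport h →
      ∫ z, ‖db h z‖ ^ q ≤ (1 / (q - 1)) ^ q * ∫ z, ‖dz h z‖ ^ q := by
    intro h hh hc
    have hh1 : ContDiff ℝ 1 h := contDiff_infty.1 hh 1
    refine h6 q _ hq1 hK (db h) (dz h) (cont_db hh1) (cont_dz hh1) (Helper11.BA.db_supp hc)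
      (Helper11.BA.dz_supp hc) ?_
    intro ε hε
    obtain ⟨V, hVs, hVc, ha, hb⟩ := h4 h hh hc q ε hq1 hε
    have hs : ContDiff ℝ ∞ (fun x => 2 * db V x) := contDiff_const.mul (Helper11.BA.db_smooth hVs)
    have hsc : HasCompactSupport (fun x => 2 * db V x) := (Helper11.BA.db_supp hVc).mul_left
    have hs1 := contDiff_infty.1 hs 1
    exact ⟨db (fun x => 2 * db V x), dz (fun x => 2 * db V x), cont_db hs1, cont_dz hs1,
      Helper11.BA.db_supp hsc, Helper11.BA.dz_supp hsc, hb, ha, potential h1 hVs hVc hq1 hq2⟩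
  intro f hf hfc
  refine h6 q _ hq1 hK (db f) (dz f) (cont_db hf) (cont_dz hf) (Helper11.BA.db_supp hfc)
    (Helper11.BA.dz_supp hfc) ?_
  intro ε hε
  obtain ⟨h, hh, hhc, ha, hb⟩ := h5 f hf hfc q ε hq1 hε
  have hs1 := contDiff_infty.1 hh 1
  exact ⟨db h, dz h, cont_db hs1, cont_dz hs1, Helper11.BA.db_supp hhc, Helper11.BA.dz_supp hhc,
    hb, ha, hS h hh hhc⟩

/-- The sharp bound for all `p > 1`. -/
theorem bd_all (h1 : CORE_C) {p : ℝ} (hp : 1 < p) : Bd p (max p (p / (p - 1)) - 1) := by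
  have hp' : 0 < p - 1 := by linarith
  rcases le_total p 2 with h | h
  · have e1 : max p (p / (p - 1)) - 1 = 1 / (p - 1) := by
      rw [max_eq_right]
      · field_simp
        ring
      · rw [le_div_iff₀ hp']
        nlinarith
    rw [e1]
    exact bd_le_two h1 hp h
  · have e1 : max p (p / (p - 1)) - 1 = p - 1 := by
      rw [max_eq_left]
      rw [div_le_iff₀ hp']
      nlinarith
    rw [e1]
    have hq1 : 1 < p / (p - 1) := by
      rw [lt_div_iff₀ hp']
      linarith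
    have hq2 : p / (p - 1) ≤ 2 := by
      rw [div_le_iff₀ hp']
      linarith
    have e2 : 1 / (p / (p - 1) - 1) = p - 1 := by
      have : p / (p - 1) - 1 = 1 / (p - 1) := by
        field_simp
        ring
      rw [this, one_div_one_div]
    have e3 : p / (p - 1) / (p / (p - 1) - 1) = p := by
      rw [div_eq_mul_one_div (p / (p - 1)), e2]
      field_simp
    have h2 := bd_le_two h1 hq1 hq2
    rw [e2] at h2
    have h3 := DUAL dens (Helper27.BA.IBP Helper91.BA.DET) _ _ hq1 hp'.le h2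
    rwa [e3] at h3

/-- Iwaniec's conjecture, from the core inequality. -/
theorem iwaniec' (h1 : CORE_C) : ∀ p : ℝ, 1 < p → ∀ f : ℂ → ℂ, ContDiff ℝ 1 f →
    HasCompactSupport f →
      ∫ z, ‖(1 / 2 : ℂ) * (fderiv ℝ f z 1 + Complex.I * fderiv ℝ f z Complex.I)‖ ^ p
        ≤ (max p (p / (p - 1)) - 1) ^ p *
          ∫ z, ‖(1 / 2 : ℂ) * (fderiv ℝ f z 1 - Complex.I * fderiv ℝ f z Complex.I)‖ ^ p :=
  fun _ hp f hf hc => bd_all h1 hp f hf hc

end Pool.Agent.Helper82.IW
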