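import Pool.Agent.Helper82.IW.Basic

/-!
# Iwaniec's conjecture, IW: packet ONE (one choice of the parameters)
-/

open Complex MeasureTheory Set Filter Topology
open scoped ContDiff ComplexConjugate

namespace Pool.Agent.Helper82.IW

open Pool.Agent.Helper28.BA (dz db psi)

noncomputable section

/-- Energy estimate. -/
theorem energy (hSPB : S_SPB) (hPL : S_PL) (hMO3 : S_MO3) {ε κ : ℝ} (hε : 0 < ε) (hκ : 0 < κ)
    {n : ℕ} {U W : ℂ → ℂ} (hU : SP U) (hW : SP W)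
    (heq : ∀ z, hl W z - (κ : ℂ) * W z = Mo n (Gf ε U W) z) :
    (∫ z in Q, ‖zb W z‖ ^ 2) + κ ^ 2 * (∫ z in Q, ‖W z‖ ^ 2) ≤
      ∫ z in Q, ‖Gf ε U W z‖ ^ 2 := by
  have h1 := (hPL W hW).2.1 κ hκ.le
  rw [(hPL W hW).1] at h1
  refine h1.trans ?_
  simp_rw [heq]
  exact hMO3 n _ (Gf_cont hSPB hε hU.cont hW) (Gf_per hSPB hU hW)

theorem min_m0 {ε ν ρ : ℝ} (hε : 0 < ε) (hν : 0 < ν) (hρ : 0 < ρ) (H : ℂ → ℂ) (z : ℂ) :
    min (1 - ‖H z / (Rr ε H z : ℂ)‖) (1 - ta ν ρ (Rr ε H z)) ≤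
      ε + (Real.sqrt ε / ρ) ^ (2 * ν) := by
  have hR := Rr_pos hε H z
  have hp : (0 : ℝ) ≤ (Real.sqrt ε / ρ) ^ (2 * ν) :=
    Real.rpow_nonneg (div_nonneg (Real.sqrt_nonneg _) hρ.le) _
  rcases le_total ε (Rr ε H z ^ 2) with h | h
  · refine (min_le_left _ _).trans ?_
    rw [beta_norm hε]
    have hb0 : 0 ≤ ‖H z‖ / Rr ε H z := by positivity
    have hb1 : ‖H z‖ / Rr ε H z ≤ 1 := by
      rw [div_le_one hR]; exact norm_le_Rr ε H z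
    have h2 : 1 - (‖H z‖ / Rr ε H z) ^ 2 = ε ^ 2 / Rr ε H z ^ 2 := by
      have := Rr_sq ε H z
      field_simp
      linarith
    have h3 : ε ^ 2 / Rr ε H z ^ 2 ≤ ε := by
      rw [div_le_iff₀ (by positivity)]
      nlinarith
    nlinarith
  · refine (min_le_right _ _).trans ?_
    have h1 : Rr ε H z ≤ Real.sqrt ε := Real.le_sqrt_of_sq_le h
    have h2 := one_sub_ta_le ν hρ hR.le
    have h3 : (Rr ε H z / ρ) ^ (2 * ν) ≤ (Real.sqrt ε / ρ) ^ (2 * ν) :=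
      Real.rpow_le_rpow (by positivity) (by gcongr) (by linarith)
    linarith

/-- The pointwise inequality at a point of the torus. -/
theorem point (hALG : S_ALG) {ε ν ρ A e : ℝ} (hε : 0 < ε) (hν : 0 < ν) (hρ : 0 < ρ) (he : 0 ≤ e)
    {U W p : ℂ → ℂ} {c : ℂ → ℝ} {z : ℂ}
    (hA1 : ‖hl U z‖ ≤ A) (hA2 : ‖zb U z‖ ≤ A) (hc : |c z - min ‖zb U z‖ 1| ≤ e)
    (hp : ‖p z - Pj (zb U z)‖ ≤ e) :
    (‖Gf ε U W z‖ ^ 2 - ‖zb W z‖ ^ 2) +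
      2 * (conj (Bf ε ν ρ c (fun w => W w - U w) z) * (hl U z - Gf ε U W z)).re +
      2 * (conj (-((ta ν ρ (Rr ε (fun w => W w - U w) z) : ℂ) * p z)) *
        (zb U z - zb W z)).re -
      2 * (ε + (Real.sqrt ε / ρ) ^ (2 * ν)) - 2 * e * (2 * A + 1 + ‖zb W z‖) ≤
        psi ‖hl U z‖ ‖zb U z‖ := by
  set H : ℂ → ℂ := fun w => W w - U w with hH
  have hR := Rr_pos hε H z
  have h := hALG (hl U z) (zb U z) (H z / (Rr ε H z : ℂ)) (zb W z) (p z) (ta ν ρ (Rr ε H z)) (c z)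
    e (beta_le hε H z) (ta_nonneg ν hρ hR.le) (ta_le ν hρ hR.le) he hc hp
  have hm := min_m0 hε hν hρ H z
  have hG : Gf ε U W z = ((max (1 - ‖zb W z‖) 0 : ℝ) : ℂ) * (H z / (Rr ε H z : ℂ)) := rfl
  have hB : Bf ε ν ρ c H z = ((1 - ta ν ρ (Rr ε H z) * c z : ℝ) : ℂ) * (H z / (Rr ε H z : ℂ)) :=
    rfl
  rw [← hG, ← hB] at h
  have h4 : 2 * e * (‖hl U z‖ + 1 + ‖zb U z‖ + ‖zb W z‖) ≤ 2 * e * (2 * A + 1 + ‖zb W z‖) := by
    apply mul_le_mul_of_nonneg_left _ (by linarith)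
    linarith
  linarith

/-- `a ≤ (1 + a²) / 2`, integrated. -/
theorem int_le_one {f : ℂ → ℝ} (hQ : volume Q = 1) (hf : Continuous f)
    (h : ∫ z in Q, f z ^ 2 ≤ 1) : ∫ z in Q, f z ≤ 1 := by
  have h1 : ∫ z in Q, f z ≤ ∫ z in Q, ((1 / 2 : ℝ) + (1 / 2) * f z ^ 2) :=
    Q_mono hf (by fun_prop) (fun z => by nlinarith [sq_nonneg (f z - 1)])
  rw [Q_add (by fun_prop) (by fun_prop), Q_const hQ, Q_mul] at h1
  linarith

end

end Pool.Agent.Helper82.IW
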