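import Pool.Agent.Helper82.IW.One

/-!
# Iwaniec's conjecture, IW: packet ONE, second part
-/

open Complex MeasureTheory Set Filter Topology
open scoped ContDiff ComplexConjugate

namespace Pool.Agent.Helper82.IW

open Pool.Agent.Helper28.BA (dz db psi)

noncomputable section

theorem norm_sub_sq_le (a b : ℂ) : ‖a - b‖ ^ 2 ≤ 2 * ‖a‖ ^ 2 + 2 * ‖b‖ ^ 2 := by
  have h := norm_sub_le a b
  have h0 := norm_nonneg (a - b)
  nlinarith [sq_nonneg (‖a‖ - ‖b‖), norm_nonneg a, norm_nonneg b]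

/-- Bounds for `H = W - U`. -/
theorem H_bounds (hQ : volume Q = 1) (hSPB : S_SPB) {κ A : ℝ} (hκ : 0 < κ) {U W : ℂ → ℂ}
    (hU : SP U) (hW : SP W) (hA : ∀ z, ‖U z‖ ≤ A ∧ ‖hl U z‖ ≤ A)
    (h1 : κ ^ 2 * (∫ z in Q, ‖W z‖ ^ 2) ≤ 1) (h2 : ∫ z in Q, ‖hl W z‖ ^ 2 ≤ 1) :
    (∫ z in Q, ‖W z - U z‖ ^ 2 ≤ 2 / κ ^ 2 + 2 * A ^ 2) ∧
    (∫ z in Q, ‖hl (fun w => W w - U w) z‖ ^ 2 ≤ 2 + 2 * A ^ 2) ∧
    ∫ z in Q, ‖hl (fun w => W w - U w) z‖ ≤ 1 + A := by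
  have hWc := hW.cont
  have hUc := hU.cont
  have hWh := hl_cont hSPB hW
  have hUh := hl_cont hSPB hU
  have hA0 : 0 ≤ A := (norm_nonneg _).trans (hA 0).1
  refine ⟨?_, ?_, ?_⟩
  · have h3 : ∫ z in Q, ‖W z - U z‖ ^ 2 ≤ ∫ z in Q, (2 * ‖W z‖ ^ 2 + 2 * A ^ 2) := by
      refine Q_mono (by fun_prop) (by fun_prop) (fun z => ?_)
      have := norm_sub_sq_le (W z) (U z)
      have := pow_le_pow_left₀ (norm_nonneg _) (hA z).1 2
      linarith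
    rw [Q_add (by fun_prop) (by fun_prop), Q_const hQ, Q_mul] at h3
    have h4 : ∫ z in Q, ‖W z‖ ^ 2 ≤ 1 / κ ^ 2 := by
      rw [le_div_iff₀ (by positivity)]
      linarith
    have h5 : 2 / κ ^ 2 = 2 * (1 / κ ^ 2) := by ring
    rw [h5]
    linarith
  · simp_rw [hl_sub hSPB hW hU]
    have h3 : ∫ z in Q, ‖hl W z - hl U z‖ ^ 2 ≤ ∫ z in Q, (2 * ‖hl W z‖ ^ 2 + 2 * A ^ 2) := by
      refine Q_mono (by fun_prop) (by fun_prop) (fun z => ?_)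
      have := norm_sub_sq_le (hl W z) (hl U z)
      have := pow_le_pow_left₀ (norm_nonneg _) (hA z).2 2
      linarith
    rw [Q_add (by fun_prop) (by fun_prop), Q_const hQ, Q_mul] at h3
    linarith
  · simp_rw [hl_sub hSPB hW hU]
    have h3 : ∫ z in Q, ‖hl W z - hl U z‖ ≤ ∫ z in Q, (‖hl W z‖ + A) := by
      refine Q_mono (by fun_prop) (by fun_prop) (fun z => ?_)
      have := norm_sub_le (hl W z) (hl U z)
      linarith [(hA z).2]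
    rw [Q_add (by fun_prop) (by fun_prop), Q_const hQ] at h3
    have h4 := int_le_one hQ hWh.norm h2
    linarith

theorem Bf_norm {ε ν ρ : ℝ} (hε : 0 < ε) (hρ : 0 < ρ) {c : ℂ → ℝ} {H : ℂ → ℂ} {z : ℂ}
    (h0 : 0 ≤ c z) (h1 : c z ≤ 1) : ‖Bf ε ν ρ c H z‖ ≤ 1 := by
  have hR := Rr_pos hε H z
  have t0 := ta_nonneg ν hρ hR.le
  have t1 := ta_le ν hρ hR.le
  have h2 : 0 ≤ ta ν ρ (Rr ε H z) * c z := mul_nonneg t0 h0
  have h3 : ta ν ρ (Rr ε H z) * c z ≤ 1 := mul_le_one₀ t1 h0 h1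
  unfold Bf
  rw [norm_mul, Complex.norm_real, Real.norm_eq_abs, abs_of_nonneg (by linarith)]
  calc _ ≤ 1 * 1 := mul_le_mul (by linarith) (beta_le hε H z) (norm_nonneg _) zero_le_one
    _ = 1 := one_mul 1

/-- `Re (B̄ W) ≥ - A`. -/
theorem re_BW {ε ν ρ A : ℝ} (hε : 0 < ε) (hρ : 0 < ρ) {c : ℂ → ℝ} {W U : ℂ → ℂ} {z : ℂ}
    (h0 : 0 ≤ c z) (h1 : c z ≤ 1) (hA : ‖U z‖ ≤ A) :
    -A ≤ (conj (Bf ε ν ρ c (fun w => W w - U w) z) * W z).re := by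
  set H : ℂ → ℂ := fun w => W w - U w with hH
  have hR := Rr_pos hε H z
  have hW : W z = H z + U z := by simp [hH]
  rw [hW, mul_add, Complex.add_re]
  have h2 : (conj (Bf ε ν ρ c H z) * H z) =
      (((1 - ta ν ρ (Rr ε H z) * c z) / Rr ε H z * ‖H z‖ ^ 2 : ℝ) : ℂ) := by
    unfold Bf
    have h3 : conj (H z) * H z = ((‖H z‖ ^ 2 : ℝ) : ℂ) := by
      rw [mul_comm, Complex.mul_conj]
      rw [Complex.normSq_eq_norm_sq]
    rw [map_mul, Complex.conj_ofReal, map_div₀, Complex.conj_ofReal]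
    push_cast at h3 ⊢
    rw [← h3]
    ring
  have h4 : 0 ≤ (conj (Bf ε ν ρ c H z) * H z).re := by
    rw [h2, Complex.ofReal_re]
    have t0 := ta_nonneg ν hρ hR.le
    have t1 := ta_le ν hρ hR.le
    have h3 : ta ν ρ (Rr ε H z) * c z ≤ 1 := mul_le_one₀ t1 h0 h1
    have : 0 ≤ 1 - ta ν ρ (Rr ε H z) * c z := by linarith
    positivity
  have h5 : |(conj (Bf ε ν ρ c H z) * U z).re| ≤ A := by
    refine (Complex.abs_re_le_norm _).trans ?_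
    rw [norm_mul, RCLike.norm_conj]
    calc _ ≤ 1 * A := mul_le_mul (Bf_norm hε hρ h0 h1) hA (norm_nonneg _) zero_le_one
      _ = A := one_mul A
  have := (abs_le.1 h5).1
  linarith

theorem Mo_cont (hMO1 : S_MO1) (hTPD : S_TPD) (n : ℕ) {f : ℂ → ℂ} (hf : Continuous f) :
    Continuous (Mo n f) := by
  obtain ⟨K, -, hK⟩ := hMO1 n
  have : Mo n f = tp n (fun k => (K k : ℂ) * ∫ w in Q, conj (ex k w) * f w) :=
    funext (hK f hf)
  rw [this]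
  exact (hTPD n _).1.cont

/-- The term with the kernel. -/
theorem kernel_term (hQ : volume Q = 1) (hSPB : S_SPB) (hPL : S_PL) (hMO1 : S_MO1)
    (hMO2 : S_MO2) (hTPD : S_TPD) (hBD : S_BD) {m : ℕ → ℝ}
    (hm : ∀ (n : ℕ) (f : ℂ → ℂ), ContDiff ℝ 1 f →
      Per f → ∫ z in Q, ‖Mo n f z - f z‖ ≤ m n * ∫ z in Q, (‖dx f z‖ + ‖dy f z‖))
    {ε κ ν ρ A K : ℝ} (hε : 0 < ε) (hκ : 0 < κ) (hν : 0 < ν) (hν1 : ν ≤ 1 / 4) (hρ : 0 < ρ)
    (hK : 0 ≤ K)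
    {n : ℕ} {U W : ℂ → ℂ} {c : ℂ → ℝ} (hU : SP U) (hW : SP W) (hc : SP c)
    (hc0 : ∀ z, 0 ≤ c z ∧ c z ≤ 1) (hcK : ∀ z, |dx c z| ≤ K ∧ |dy c z| ≤ K)
    (hA : ∀ z, ‖U z‖ ≤ A ∧ ‖hl U z‖ ≤ A)
    (heq : ∀ z, hl W z - (κ : ℂ) * W z = Mo n (Gf ε U W) z)
    (h1 : κ ^ 2 * (∫ z in Q, ‖W z‖ ^ 2) ≤ 1) (h2 : ∫ z in Q, ‖hl W z‖ ^ 2 ≤ 1) :
    -(2 * κ * A) - |m n| * (6 / ε * (3 + 2 / κ ^ 2 + 4 * A ^ 2) + 4 * K) ≤
      2 * ∫ z in Q, (conj (Bf ε ν ρ c (fun w => W w - U w) z) *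
        (hl W z - Gf ε U W z)).re := by
  have hH : SP (fun w => W w - U w) := hW.sub hU
  obtain ⟨hb1, hb2, -⟩ := H_bounds hQ hSPB hκ hU hW hA h1 h2
  have hB := hSPB.2.2.2 ε ν ρ (fun w => W w - U w) c hε hρ hH hc
  have hBD' := hBD ε ν ρ (fun w => W w - U w) c hε hν hν1 hρ hH hc hc0
  have hPH := (hPL _ hH).2.2
  have hdxH := (hSPB.1 _ hH).1.cont
  have hdyH := (hSPB.1 _ hH).2.1.cont
  have hBW : ∀ z, -A ≤ (conj (Bf ε ν ρ c (fun w => W w - U w) z) * W z).re :=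
    fun z => re_BW hε hρ (hc0 z).1 (hc0 z).2 (hA z).1
  set B : ℂ → ℂ := Bf ε ν ρ c (fun w => W w - U w) with hBdef
  set G : ℂ → ℂ := Gf ε U W with hG
  set H : ℂ → ℂ := fun w => W w - U w with hHdef
  have hGc : Continuous G := Gf_cont hSPB hε hU.cont hW
  have hBc : Continuous B := hB.cont
  have hWc := hW.cont
  have hMG : Continuous (Mo n G) := Mo_cont hMO1 hTPD n hGc
  have hMB : Continuous (Mo n B) := Mo_cont hMO1 hTPD n hBc
  have hdxB := (hSPB.1 _ hB).1.cont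
  have hdyB := (hSPB.1 _ hB).2.1.cont
  have hcon : Continuous (fun z : ℂ => conj z) := Complex.continuous_conj
  have cB : Continuous fun z => conj (B z) := hcon.comp hBc
  have cMB : Continuous fun z => conj (Mo n B z) := hcon.comp hMB
  -- the identity
  have e1 : ∫ z in Q, (conj (B z) * Mo n G z).re = ∫ z in Q, (conj (Mo n B z) * G z).re := by
    rw [Q_re (by fun_prop), Q_re (by fun_prop), hMO2 n G B hGc hBc]
  have e2 : ∫ z in Q, (conj (B z) * (hl W z - G z)).re =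
      κ * (∫ z in Q, (conj (B z) * W z).re) +
        ∫ z in Q, (conj (Mo n B z - B z) * G z).re := by
    have e3 : ∀ z, (conj (B z) * (hl W z - G z)).re =
        κ * (conj (B z) * W z).re + ((conj (B z) * Mo n G z).re - (conj (B z) * G z).re) := by
      intro z
      have : hl W z = (κ : ℂ) * W z + Mo n G z := by rw [← heq z]; ring
      rw [this]
      have h3 : conj (B z) * ((κ : ℂ) * W z + Mo n G z - G z) =
          (κ : ℂ) * (conj (B z) * W z) + (conj (B z) * Mo n G z - conj (B z) * G z) := by ring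
      rw [h3, Complex.add_re, Complex.re_ofReal_mul, Complex.sub_re]
    have e4 : ∀ z, (conj (Mo n B z - B z) * G z).re =
        (conj (Mo n B z) * G z).re - (conj (B z) * G z).re := by
      intro z
      rw [map_sub, sub_mul, Complex.sub_re]
    simp_rw [e3, e4]
    rw [Q_add (by fun_prop) (by fun_prop), Q_mul, Q_sub (by fun_prop) (by fun_prop),
      Q_sub (by fun_prop) (by fun_prop), e1]
  -- bounds
  have b1 : -A ≤ ∫ z in Q, (conj (B z) * W z).re := by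
    have := Q_mono (continuous_const (y := -A)) (by fun_prop) hBW
    rwa [Q_const hQ] at this
  have b2 : -(∫ z in Q, ‖Mo n B z - B z‖) ≤ ∫ z in Q, (conj (Mo n B z - B z) * G z).re := by
    have h3 : ∫ z in Q, (-1 : ℝ) * ‖Mo n B z - B z‖ ≤
        ∫ z in Q, (conj (Mo n B z - B z) * G z).re := by
      refine Q_mono (by fun_prop) (by fun_prop) (fun z => ?_)
      have h4 : |(conj (Mo n B z - B z) * G z).re| ≤ ‖Mo n B z - B z‖ := by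
        refine (Complex.abs_re_le_norm _).trans ?_
        rw [norm_mul, RCLike.norm_conj]
        calc _ ≤ ‖Mo n B z - B z‖ * 1 := by
              gcongr
              exact Gf_le hε U W z
          _ = _ := mul_one _
      have := (abs_le.1 h4).1
      linarith
    rw [Q_mul] at h3
    linarith
  have b3 : ∫ z in Q, ‖Mo n B z - B z‖ ≤ m n * ∫ z in Q, (‖dx B z‖ + ‖dy B z‖) :=
    hm n B (hB.smooth.of_le (by simp)) hB.per
  have b4 : ∫ z in Q, (‖dx B z‖ + ‖dy B z‖) ≤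
      3 / ε * (3 + 2 / κ ^ 2 + 4 * A ^ 2) + 2 * K := by
    have h3 : ∫ z in Q, (‖dx B z‖ + ‖dy B z‖) ≤
        ∫ z in Q, (3 / ε * (1 + (‖dx H z‖ ^ 2 + ‖dy H z‖ ^ 2)) + 2 * K) := by
      refine Q_mono (by fun_prop) (by fun_prop) (fun z => ?_)
      have h4 := hBD' z
      have h5 := hcK z
      have h6 : ‖dx H z‖ + ‖dy H z‖ ≤ 1 + (‖dx H z‖ ^ 2 + ‖dy H z‖ ^ 2) := by
        nlinarith [sq_nonneg (‖dx H z‖ - 1 / 2), sq_nonneg (‖dy H z‖ - 1 / 2)]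
      have h7 : 3 / ε * (‖dx H z‖ + ‖dy H z‖) ≤ 3 / ε * (1 + (‖dx H z‖ ^ 2 + ‖dy H z‖ ^ 2)) := by
        gcongr
      have h8 : 3 / ε * (‖dx H z‖ + ‖dy H z‖) = 3 / ε * ‖dx H z‖ + 3 / ε * ‖dy H z‖ := by ring
      linarith [h4.1, h4.2, h5.1, h5.2]
    have h11 : ∫ z in Q, (3 / ε * (1 + (‖dx H z‖ ^ 2 + ‖dy H z‖ ^ 2)) + 2 * K) =
        3 / ε * (1 + ∫ z in Q, (‖dx H z‖ ^ 2 + ‖dy H z‖ ^ 2)) + 2 * K := by
      rw [Q_add (by fun_prop) (by fun_prop), Q_const hQ, Q_mul,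
        Q_add (by fun_prop) (by fun_prop), Q_const hQ]
    rw [h11] at h3
    have h9 : ∫ z in Q, (‖dx H z‖ ^ 2 + ‖dy H z‖ ^ 2) ≤
        (∫ z in Q, ‖H z‖ ^ 2) + ∫ z in Q, ‖hl H z‖ ^ 2 := hPH
    have h10 : 3 / ε * (1 + ∫ z in Q, (‖dx H z‖ ^ 2 + ‖dy H z‖ ^ 2)) ≤
        3 / ε * (3 + 2 / κ ^ 2 + 4 * A ^ 2) := by
      apply mul_le_mul_of_nonneg_left _ (by positivity)
      linarith
    linarith
  have b5 : 0 ≤ ∫ z in Q, (‖dx B z‖ + ‖dy B z‖) :=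
    integral_nonneg fun z => by positivity
  have b6 : m n * ∫ z in Q, (‖dx B z‖ + ‖dy B z‖) ≤
      |m n| * (3 / ε * (3 + 2 / κ ^ 2 + 4 * A ^ 2) + 2 * K) :=
    mul_le_mul (le_abs_self _) b4 b5 (abs_nonneg _)
  have b7 : κ * -A ≤ κ * ∫ z in Q, (conj (B z) * W z).re :=
    mul_le_mul_of_nonneg_left b1 hκ.le
  have b8 : |m n| * (6 / ε * (3 + 2 / κ ^ 2 + 4 * A ^ 2) + 4 * K) =
      2 * (|m n| * (3 / ε * (3 + 2 / κ ^ 2 + 4 * A ^ 2) + 2 * K)) := by ring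
  rw [e2, b8]
  linarith

end

end Pool.Agent.Helper82.IW
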